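import Mathlib

/-!
# Labelled graded orders with `k ≥ 5` grade levels (MP_ac85ec, Q2)

For each fixed `k ≥ 5`, `log₂ a_k(n) = n²/4 + (1 - (k - 5)/2) n + O(log n)`.

Upper bound: a graded order is determined by its level map `g` and its cover relation, which joins
consecutive levels only, so `a_k(n) ≤ ∑ 2 ^ pairs g` over surjections `g` onto the `k` levels. Given
the union `S` of the odd levels and the partition `ψ` of the rest, the sum over the partitions of
`S` is at most `n ^ o * 2 ^ (∑ A_i) * (∑ 2 ^ A_i) ^ (|S| - o)`, where `A_i` is the number of elements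
on the two levels next to the odd level `i`. The sum over `ψ` is then bounded through the two
classes next to a maximiser of `A_i`.

Lower bound: level sizes `1, b, m, c, 1, ..., 1` with `m` about `n / 2`, all splittings of the rest
into `b + c`, and all bipartite graphs between consecutive levels for which the order is connected.
-/

namespace Pool.Agent.Results.MP_ac85ec_co.FiveOrMore

open Finset

/-- `r` is a (reflexive) partial order on the ground set `Fin n`. -/
def IsOrder {n : ℕ} (r : Fin n → Fin n → Prop) : Prop :=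
  (∀ x, r x x) ∧ (∀ x y, r x y → r y x → x = y) ∧ (∀ x y z, r x y → r y z → r x z)

/-- The strict order `p < q`. -/
def Lt {n : ℕ} (r : Fin n → Fin n → Prop) (p q : Fin n) : Prop := r p q ∧ p ≠ q

/-- `q` covers `p`. -/
def Covers {n : ℕ} (r : Fin n → Fin n → Prop) (p q : Fin n) : Prop :=
  Lt r p q ∧ ¬ ∃ x, Lt r p x ∧ Lt r x q

/-- `g` is a normalised grade map: an order preserving map to the positive integers which
increases by one along covers and takes the value `1` on every component of the comparability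
graph. -/
structure IsGrade {n : ℕ} (r : Fin n → Fin n → Prop) (g : Fin n → ℕ) : Prop where
  pos : ∀ p, 1 ≤ g p
  mono : ∀ p q, r p q → g p ≤ g q
  step : ∀ p q, Covers r p q → g q = g p + 1
  norm : ∀ p, ∃ b, Relation.EqvGen r p b ∧ g b = 1

/-- `r` is a partial order that is graded with exactly `k` grade levels. -/
def GradedWithLevels (k : ℕ) {n : ℕ} (r : Fin n → Fin n → Prop) : Prop :=
  IsOrder r ∧ ∃ g : Fin n → ℕ, IsGrade r g ∧ (Set.range g).ncard = k

/-- The number `a_k(n)` of partial orders on an `n`-element ground set that are graded with exactly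
`k` grade levels. -/
noncomputable def a (k n : ℕ) : ℕ :=
  Nat.card {r : Fin n → Fin n → Prop // GradedWithLevels k r}

/-! ### Upper bound: encoding by the level map and the covers -/

section upper

variable {n : ℕ} {r : Fin n → Fin n → Prop}

/-- Induction along intervals. -/
lemma interval_induction (hr : IsOrder r) (P : Fin n → Fin n → Prop)
    (h1 : ∀ x, P x x) (h2 : ∀ x y, Covers r x y → P x y)
    (h3 : ∀ x y z, r x y → r y z → P x y → P y z → P x z) :
    ∀ x y, r x y → P x y := by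
  classical
  have key : ∀ m : ℕ, ∀ x y, r x y → (univ.filter (fun z => r x z ∧ r z y)).card ≤ m → P x y := by
    intro m
    induction m with
    | zero =>
      intro x y hxy hc
      exfalso
      have : x ∈ univ.filter (fun z => r x z ∧ r z y) := by simp [hr.1 x, hxy]
      have := card_pos.2 ⟨x, this⟩
      omega
    | succ m ih =>
      intro x y hxy hc
      by_cases hxy' : x = y
      · subst hxy'; exact h1 x
      by_cases hcov : Covers r x y
      · exact h2 x y hcov
      have : ∃ w, Lt r x w ∧ Lt r w y := by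
        by_contra hcon
        exact hcov ⟨⟨hxy, hxy'⟩, hcon⟩
      obtain ⟨w, hxw, hwy⟩ := this
      refine h3 x w y hxw.1 hwy.1 (ih x w hxw.1 ?_) (ih w y hwy.1 ?_)
      · have : (univ.filter (fun z => r x z ∧ r z w)) ⊂ (univ.filter (fun z => r x z ∧ r z y)) := by
          refine ⟨fun z hz => ?_, fun hcon => ?_⟩
          · simp only [mem_filter, mem_univ, true_and] at hz ⊢
            exact ⟨hz.1, hr.2.2 _ _ _ hz.2 hwy.1⟩
          · have hy : y ∈ univ.filter (fun z => r x z ∧ r z y) := by simp [hr.1 y, hxy]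
            have := hcon hy
            simp only [mem_filter, mem_univ, true_and] at this
            exact hwy.2 (hr.2.1 _ _ hwy.1 this.2)
        have := card_lt_card this
        omega
      · have : (univ.filter (fun z => r w z ∧ r z y)) ⊂ (univ.filter (fun z => r x z ∧ r z y)) := by
          refine ⟨fun z hz => ?_, fun hcon => ?_⟩
          · simp only [mem_filter, mem_univ, true_and] at hz ⊢
            exact ⟨hr.2.2 _ _ _ hxw.1 hz.1, hz.2⟩
          · have hx : x ∈ univ.filter (fun z => r x z ∧ r z y) := by simp [hr.1 x, hxy]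
            have := hcon hx
            simp only [mem_filter, mem_univ, true_and] at this
            exact hxw.2 (hr.2.1 _ _ hxw.1 this.1)
        have := card_lt_card this
        omega
  intro x y hxy
  exact key _ x y hxy le_rfl

lemma exists_value (hr : IsOrder r) {g : Fin n → ℕ} (hg : IsGrade r g) {x y : Fin n}
    (h : Relation.EqvGen r x y) :
    ∀ v, ((g x ≤ v ∧ v ≤ g y) ∨ (g y ≤ v ∧ v ≤ g x)) → ∃ z, g z = v := by
  induction h with
  | rel x y hxy =>
    refine interval_induction hr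
      (fun x y => ∀ v, ((g x ≤ v ∧ v ≤ g y) ∨ (g y ≤ v ∧ v ≤ g x)) → ∃ z, g z = v)
      ?_ ?_ ?_ x y hxy
    · intro x v hv
      exact ⟨x, by omega⟩
    · intro x y hc v hv
      have := hg.step x y hc
      have hv' : v = g x ∨ v = g y := by omega
      rcases hv' with h | h
      · exact ⟨x, h.symm⟩
      · exact ⟨y, h.symm⟩
    · intro x y z _ _ h1 h2 v hv
      by_cases h : (g x ≤ v ∧ v ≤ g y) ∨ (g y ≤ v ∧ v ≤ g x)
      · exact h1 v h
      · exact h2 v (by omega)
  | refl x => intro v hv; exact ⟨x, by omega⟩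
  | symm x y _ ih => intro v hv; exact ih v hv.symm
  | trans x y z _ _ ih1 ih2 =>
    intro v hv
    by_cases h : (g x ≤ v ∧ v ≤ g y) ∨ (g y ≤ v ∧ v ≤ g x)
    · exact ih1 v h
    · exact ih2 v (by omega)

lemma range_eq (hr : IsOrder r) {g : Fin n → ℕ} (hg : IsGrade r g) {k : ℕ}
    (hk : (Set.range g).ncard = k) : Set.range g = Set.Icc 1 k := by
  have hdown : ∀ v ∈ Set.range g, ∀ w, 1 ≤ w → w ≤ v → w ∈ Set.range g := by
    rintro v ⟨p, rfl⟩ w hw1 hw2
    obtain ⟨b, hb, hb1⟩ := hg.norm p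
    obtain ⟨z, hz⟩ := exists_value hr hg hb w (Or.inr ⟨by omega, hw2⟩)
    exact ⟨z, hz⟩
  have hfin : (Set.range g).Finite := Set.finite_range g
  have hsub : Set.range g ⊆ Set.Icc 1 k := by
    rintro v hv
    have h1 : 1 ≤ v := by obtain ⟨p, rfl⟩ := hv; exact hg.pos p
    refine ⟨h1, ?_⟩
    have hsub2 : Set.Icc 1 v ⊆ Set.range g := fun w hw => hdown v hv w hw.1 hw.2
    have := Set.ncard_le_ncard hsub2 hfin
    rw [hk] at this
    have hc : (Set.Icc 1 v).ncard = v := by
      rw [← Finset.coe_Icc, Set.ncard_coe_finset]; simp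
    omega
  refine Set.eq_of_subset_of_ncard_le hsub ?_
  rw [hk, ← Finset.coe_Icc, Set.ncard_coe_finset]; simp

/-- The order is generated by its covers. -/
lemma generated (hr : IsOrder r) (x y : Fin n) :
    r x y ↔ Relation.ReflTransGen (Covers r) x y := by
  constructor
  · intro h
    exact interval_induction hr (fun x y => Relation.ReflTransGen (Covers r) x y)
      (fun x => Relation.ReflTransGen.refl) (fun x y h => Relation.ReflTransGen.single h)
      (fun x y z _ _ h1 h2 => h1.trans h2) x y h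
  · intro h
    induction h with
    | refl => exact hr.1 _
    | tail _ hc ih => exact hr.2.2 _ _ _ ih hc.1.1

/-- Number of pairs of elements on consecutive levels. -/
def pairs {n k : ℕ} (g : Fin n → Fin k) : ℕ :=
  ∑ x, (univ.filter (fun y => (g y).val + 1 = (g x).val)).card

theorem a_le (k n : ℕ) :
    a k n ≤ ∑ g ∈ univ.filter (fun g : Fin n → Fin k => Function.Surjective g), 2 ^ pairs g := by
  classical
  -- the codes
  let I : Finset (Σ _ : Fin n → Fin k, Fin n → Finset (Fin n)) :=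
    (univ.filter (fun g : Fin n → Fin k => Function.Surjective g)).sigma
      (fun g => Fintype.piFinset
        (fun x => (univ.filter (fun y => (g y).val + 1 = (g x).val)).powerset))
  have hI : I.card = ∑ g ∈ univ.filter (fun g : Fin n → Fin k => Function.Surjective g),
      2 ^ pairs g := by
    rw [card_sigma]
    refine sum_congr rfl fun g _ => ?_
    rw [Fintype.card_piFinset]
    simp only [card_powerset]
    rw [prod_pow_eq_pow_sum]
    rfl
  rw [← hI, ← Nat.card_eq_finsetCard I]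
  unfold a
  have hcode : ∀ r : {r : Fin n → Fin n → Prop // GradedWithLevels k r},
      ∃ g : Fin n → Fin k, Function.Surjective g ∧
        ∀ x y, Covers r.1 y x → (g y).val + 1 = (g x).val := by
    rintro ⟨r, hr, g, hg, hk⟩
    have hrange := range_eq hr hg hk
    have hlt : ∀ x, g x - 1 < k := by
      intro x
      have : g x ∈ Set.range g := ⟨x, rfl⟩
      rw [hrange] at this
      have h1 := this.1
      have h2 := this.2
      omega
    refine ⟨fun x => ⟨g x - 1, hlt x⟩, ?_, ?_⟩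
    · intro i
      have : i.val + 1 ∈ Set.range g := by
        rw [hrange]
        exact ⟨by omega, by have := i.2; omega⟩
      obtain ⟨x, hx⟩ := this
      exact ⟨x, Fin.ext (by simp [hx])⟩
    · intro x y hc
      have h1 := hg.step y x hc
      have h2 := hg.pos y
      simp only
      omega
  choose G hG1 hG2 using hcode
  refine Nat.card_le_card_of_injective
    (fun r => (⟨⟨G r, fun x => univ.filter (fun y => Covers r.1 y x)⟩, ?_⟩ : I)) ?_
  · simp only [I, mem_sigma, mem_filter, mem_univ, true_and, Fintype.mem_piFinset, mem_powerset]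
    refine ⟨hG1 r, fun x y hy => ?_⟩
    simp only [mem_filter, mem_univ, true_and] at hy ⊢
    exact hG2 r x y hy
  · intro r r' h
    have h2 : (fun x => univ.filter (fun y => Covers r.1 y x)) =
        (fun x => univ.filter (fun y => Covers r'.1 y x)) := by
      have := congrArg (fun z : I => z.1.2) h
      exact this
    have hcov : Covers r.1 = Covers r'.1 := by
      funext y x
      have := congrFun h2 x
      have h3 := Finset.ext_iff.1 this y
      simp only [mem_filter, mem_univ, true_and] at h3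
      exact propext h3
    apply Subtype.ext
    funext x y
    apply propext
    rw [generated r.2.1, generated r'.2.1, hcov]

end upper

/-- Sums of product weights over surjections. -/
lemma sum_surj_le {α β : Type*} [Fintype α] [DecidableEq α] [Fintype β] [DecidableEq β]
    (w : β → ℕ) :
    ∑ φ ∈ univ.filter (fun φ : α → β => Function.Surjective φ), ∏ x, w (φ x) ≤
      Fintype.card α ^ Fintype.card β *
        ((∏ b, w b) * (∑ b, w b) ^ (Fintype.card α - Fintype.card β)) := by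
  classical
  have h1 : ∑ φ ∈ univ.filter (fun φ : α → β => Function.Surjective φ), ∏ x, w (φ x) ≤
      ∑ φ : α → β, ∑ ρ : β → α, if (∀ b, φ (ρ b) = b) then ∏ x, w (φ x) else 0 := by
    rw [← Finset.sum_filter_add_sum_filter_not univ (fun φ : α → β => Function.Surjective φ)
      (fun φ : α → β => ∑ ρ : β → α, if (∀ b, φ (ρ b) = b) then ∏ x, w (φ x) else 0)]
    refine le_trans (sum_le_sum fun φ hφ => ?_) (Nat.le_add_right _ _)
    rw [mem_filter] at hφ
    obtain ⟨ρ, hρ⟩ := hφ.2.hasRightInverse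
    have : (if (∀ b, φ (ρ b) = b) then ∏ x, w (φ x) else 0) = ∏ x, w (φ x) := if_pos hρ
    refine le_trans (le_of_eq this.symm) ?_
    exact single_le_sum (f := fun ρ : β → α => if (∀ b, φ (ρ b) = b) then ∏ x, w (φ x) else 0)
      (fun _ _ => Nat.zero_le _) (mem_univ ρ)
  refine h1.trans ?_
  rw [sum_comm]
  have h2 : ∀ ρ : β → α, (∑ φ : α → β, if (∀ b, φ (ρ b) = b) then ∏ x, w (φ x) else 0) ≤
      ((∏ b, w b) * (∑ b, w b) ^ (Fintype.card α - Fintype.card β)) := by
    intro ρ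
    by_cases hinj : Function.Injective ρ
    · rw [← sum_filter]
      let T : α → Finset β := fun x => univ.filter (fun b => ∀ b', ρ b' = x → b' = b)
      have hsub : univ.filter (fun φ : α → β => ∀ b, φ (ρ b) = b) ⊆ Fintype.piFinset T := by
        intro φ hφ
        rw [mem_filter] at hφ
        rw [Fintype.mem_piFinset]
        intro x
        simp only [T, mem_filter, mem_univ, true_and]
        intro b' hb'
        rw [← hb', hφ.2]
      refine le_trans (sum_le_sum_of_subset hsub) ?_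
      rw [← Finset.prod_univ_sum]
      rw [← Finset.prod_mul_prod_compl (univ.image ρ)]
      rw [prod_image (fun a _ b _ h => hinj h)]
      have e1 : ∀ b, ∑ c ∈ T (ρ b), w c = w b := by
        intro b
        have : T (ρ b) = {b} := by
          ext c
          simp only [T, mem_filter, mem_univ, true_and, mem_singleton]
          constructor
          · intro h; exact (h b rfl).symm
          · rintro rfl b' hb'; exact hinj hb'
        rw [this, sum_singleton]
      have e2 : ∀ x ∈ (univ.image ρ)ᶜ, ∑ c ∈ T x, w c = ∑ b, w b := by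
        intro x hx
        have : T x = univ := by
          ext c
          simp only [T, mem_filter, mem_univ, true_and, iff_true]
          intro b' hb'
          exfalso
          rw [mem_compl] at hx
          exact hx (mem_image.2 ⟨b', mem_univ _, hb'⟩)
        rw [this]
      rw [prod_congr rfl (fun b _ => e1 b), prod_congr rfl e2, prod_const, card_compl,
        card_image_of_injective _ hinj, card_univ]
    · have : ∀ φ : α → β, ¬ (∀ b, φ (ρ b) = b) := by
        intro φ h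
        apply hinj
        intro b b' hb
        have h1 := h b
        rw [hb, h b'] at h1
        exact h1.symm
      simp only [this, if_false, sum_const_zero]
      exact Nat.zero_le _
  refine le_trans (sum_le_sum fun ρ _ => h2 ρ) ?_
  rw [sum_const, card_univ, Fintype.card_fun, smul_eq_mul]

/-- The size of the `j`-th class, counted from one. -/
def cnt {γ : Type*} [Fintype γ] {e : ℕ} (ψ : γ → Fin e) (j : ℕ) : ℕ :=
  (univ.filter (fun y => (ψ y).val + 1 = j)).card

/-- The number of elements in the two classes next to `i`. -/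
def adj {γ : Type*} [Fintype γ] {e : ℕ} (ψ : γ → Fin e) (i : ℕ) : ℕ :=
  cnt ψ i + cnt ψ (i + 1)

lemma pairs_eq {n k : ℕ} (g : Fin n → Fin k) :
    pairs g = ∑ x ∈ univ.filter (fun x => Even (g x).val),
      ((univ.filter (fun y => (g y).val + 1 = (g x).val)).card +
        (univ.filter (fun y => (g x).val + 1 = (g y).val)).card) := by
  unfold pairs
  rw [← Finset.sum_filter_add_sum_filter_not univ (fun x => Even (g x).val), sum_add_distrib]
  congr 1
  have e1 : ∀ x, (univ.filter (fun y => (g y).val + 1 = (g x).val)).card =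
      ∑ y, if (g y).val + 1 = (g x).val then 1 else 0 := by
    intro x; rw [card_filter]
  have e2 : ∀ x, (univ.filter (fun y => (g x).val + 1 = (g y).val)).card =
      ∑ y, if (g x).val + 1 = (g y).val then 1 else 0 := by
    intro x; rw [card_filter]
  simp only [e1, e2]
  rw [sum_filter, sum_filter]
  have e3 : ∀ x, (if ¬ Even (g x).val then ∑ y, (if (g y).val + 1 = (g x).val then 1 else 0) else 0)
      = ∑ y, if (¬ Even (g x).val ∧ (g y).val + 1 = (g x).val) then 1 else 0 := by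
    intro x
    by_cases h : Even (g x).val <;> simp [h]
  have e4 : ∀ x, (if Even (g x).val then ∑ y, (if (g x).val + 1 = (g y).val then 1 else 0) else 0)
      = ∑ y, if (Even (g x).val ∧ (g x).val + 1 = (g y).val) then 1 else 0 := by
    intro x
    by_cases h : Even (g x).val <;> simp [h]
  simp only [e3, e4]
  rw [sum_comm]
  refine sum_congr rfl fun x _ => sum_congr rfl fun y _ => ?_
  congr 1
  apply propext
  constructor
  · rintro ⟨h1, h2⟩
    refine ⟨?_, h2⟩
    by_contra h3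
    rw [← h2] at h1
    exact h1 (Nat.even_add_one.2 h3)
  · rintro ⟨h1, h2⟩
    refine ⟨?_, h2⟩
    rw [← h2]
    intro h3
    exact (Nat.even_add_one.1 h3) h1

lemma sum_adj_le {γ : Type*} [Fintype γ] {e o : ℕ} (ψ : γ → Fin e) :
    ∑ i : Fin o, adj ψ i.val ≤ 2 * Fintype.card γ := by
  classical
  have h : ∀ J : Finset ℕ, ∑ j ∈ J, cnt ψ j ≤ Fintype.card γ := by
    intro J
    unfold cnt
    rw [← card_biUnion]
    · exact card_le_univ _
    · intro i _ j _ hij
      rw [Function.onFun, disjoint_left]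
      intro y h1 h2
      rw [mem_filter] at h1 h2
      exact hij (h1.2.symm.trans h2.2)
  have h1 : ∑ i : Fin o, adj ψ i.val = ∑ i ∈ range o, cnt ψ i + ∑ i ∈ range o, cnt ψ (i + 1) := by
    rw [← sum_add_distrib, Finset.sum_range]
    rfl
  rw [h1]
  have h2 := h (range o)
  have h3 := h ((range o).image (· + 1))
  rw [sum_image (by intro a _ b _ h; simpa using h)] at h3
  omega

theorem sum_pairs_le {n k : ℕ} (hk : 2 ≤ k) :
    ∑ g ∈ univ.filter (fun g : Fin n → Fin k => Function.Surjective g), 2 ^ pairs g ≤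
      ∑ S : Finset (Fin n), ∑ ψ ∈ univ.filter
        (fun ψ : {x // x ∉ S} → Fin (k / 2) => Function.Surjective ψ),
        ∑ φ ∈ univ.filter
        (fun φ : {x // x ∈ S} → Fin ((k + 1) / 2) => Function.Surjective φ),
          ∏ x, 2 ^ adj ψ (φ x).val := by
  classical
  have hmaps : ∀ g ∈ univ.filter (fun g : Fin n → Fin k => Function.Surjective g),
      (univ.filter (fun x => Even (g x).val)) ∈ (univ : Finset (Finset (Fin n))) :=
    fun g _ => mem_univ _
  rw [← sum_fiberwise_of_maps_to hmaps]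
  refine sum_le_sum fun S _ => ?_
  rw [← sum_product']
  -- the code
  let F : (Fin n → Fin k) → ({x // x ∉ S} → Fin (k / 2)) × ({x // x ∈ S} → Fin ((k + 1) / 2)) :=
    fun g => (fun x => if h : (g x.1).val / 2 < k / 2 then ⟨(g x.1).val / 2, h⟩
      else ⟨0, by omega⟩, fun x => ⟨(g x.1).val / 2, by have := (g x.1).2; omega⟩)
  have hmem : ∀ g ∈ (univ.filter (fun g : Fin n → Fin k => Function.Surjective g)).filter
      (fun g => univ.filter (fun x => Even (g x).val) = S),
      Function.Surjective g ∧ (∀ x, x ∈ S ↔ Even (g x).val) := by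
    intro g hg
    rw [mem_filter, mem_filter] at hg
    refine ⟨hg.1.2, fun x => ?_⟩
    rw [← hg.2]; simp
  have hinj : Set.InjOn F ((univ.filter (fun g : Fin n → Fin k => Function.Surjective g)).filter
      (fun g => univ.filter (fun x => Even (g x).val) = S)) := by
    intro g hg g' hg' hF
    obtain ⟨-, h1⟩ := hmem g hg
    obtain ⟨-, h1'⟩ := hmem g' hg'
    have hF1 := congrArg Prod.fst hF
    have hF2 := congrArg Prod.snd hF
    funext x
    apply Fin.ext
    by_cases hx : x ∈ S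
    · have h2 := congrFun hF2 ⟨x, hx⟩
      simp only [F, Fin.mk.injEq] at h2
      have e1 := (h1 x).1 hx
      have e2 := (h1' x).1 hx
      rw [Nat.even_iff] at e1 e2
      omega
    · have h2 := congrFun hF1 ⟨x, hx⟩
      have e1 : ¬ Even (g x).val := fun h => hx ((h1 x).2 h)
      have e2 : ¬ Even (g' x).val := fun h => hx ((h1' x).2 h)
      rw [Nat.even_iff] at e1 e2
      have b1 := (g x).2
      have b2 := (g' x).2
      have c1 : (g x).val / 2 < k / 2 := by omega
      have c2 : (g' x).val / 2 < k / 2 := by omega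
      simp only [F, c1, c2, dif_pos, Fin.mk.injEq] at h2
      omega
  have hsurj : ∀ g ∈ (univ.filter (fun g : Fin n → Fin k => Function.Surjective g)).filter
      (fun g => univ.filter (fun x => Even (g x).val) = S),
      F g ∈ (univ.filter
        (fun ψ : {x // x ∉ S} → Fin (k / 2) => Function.Surjective ψ)) ×ˢ (univ.filter
        (fun φ : {x // x ∈ S} → Fin ((k + 1) / 2) => Function.Surjective φ)) := by
    intro g hg
    obtain ⟨h0, h1⟩ := hmem g hg
    simp only [mem_product, mem_filter, mem_univ, true_and]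
    refine ⟨fun j => ?_, fun i => ?_⟩
    · have hj := j.2
      obtain ⟨x, hx⟩ := h0 ⟨2 * j.val + 1, by omega⟩
      have hx' : (g x).val = 2 * j.val + 1 := by rw [hx]
      have hxS : x ∉ S := by
        rw [h1 x, hx', Nat.even_iff]; omega
      refine ⟨⟨x, hxS⟩, ?_⟩
      apply Fin.ext
      have c1 : (g x).val / 2 < k / 2 := by omega
      simp only [F, c1, dif_pos]
      omega
    · have hi := i.2
      obtain ⟨x, hx⟩ := h0 ⟨2 * i.val, by omega⟩
      have hx' : (g x).val = 2 * i.val := by rw [hx]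
      have hxS : x ∈ S := by
        rw [h1 x, hx', Nat.even_iff]; omega
      refine ⟨⟨x, hxS⟩, ?_⟩
      apply Fin.ext
      simp only [F]
      omega
  have hval : ∀ g ∈ (univ.filter (fun g : Fin n → Fin k => Function.Surjective g)).filter
      (fun g => univ.filter (fun x => Even (g x).val) = S),
      2 ^ pairs g = ∏ x, 2 ^ adj (F g).1 ((F g).2 x).val := by
    intro g hg
    obtain ⟨h0, h1⟩ := hmem g hg
    rw [prod_pow_eq_pow_sum]
    congr 1
    rw [pairs_eq]
    have hS : univ.filter (fun x => Even (g x).val) = S := by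
      rw [mem_filter] at hg; exact hg.2
    rw [hS, ← Finset.sum_coe_sort S]
    refine sum_congr rfl fun x _ => ?_
    have hxe := (h1 x.1).1 x.2
    rw [Nat.even_iff] at hxe
    unfold adj cnt
    congr 1
    · symm
      refine card_bij (fun y _ => y.1) ?_ ?_ ?_
      · intro y hy
        simp only [mem_filter, mem_univ, true_and] at hy ⊢
        have e1 : ¬ Even (g y.1).val := fun h => y.2 ((h1 y.1).2 h)
        rw [Nat.even_iff] at e1
        have b1 := (g y.1).2
        have c1 : (g y.1).val / 2 < k / 2 := by omega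
        simp only [F, c1, dif_pos] at hy
        omega
      · intro y _ y' _ h; exact Subtype.ext h
      · intro y hy
        simp only [mem_filter, mem_univ, true_and] at hy
        have hyS : y ∉ S := by rw [h1 y, Nat.even_iff]; omega
        refine ⟨⟨y, hyS⟩, ?_, rfl⟩
        simp only [mem_filter, mem_univ, true_and]
        have b1 := (g y).2
        have c1 : (g y).val / 2 < k / 2 := by omega
        simp only [F, c1, dif_pos]
        omega
    · symm
      refine card_bij (fun y _ => y.1) ?_ ?_ ?_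
      · intro y hy
        simp only [mem_filter, mem_univ, true_and] at hy ⊢
        have e1 : ¬ Even (g y.1).val := fun h => y.2 ((h1 y.1).2 h)
        rw [Nat.even_iff] at e1
        have b1 := (g y.1).2
        have c1 : (g y.1).val / 2 < k / 2 := by omega
        simp only [F, c1, dif_pos] at hy
        omega
      · intro y _ y' _ h; exact Subtype.ext h
      · intro y hy
        simp only [mem_filter, mem_univ, true_and] at hy
        have hyS : y ∉ S := by rw [h1 y, Nat.even_iff]; omega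
        refine ⟨⟨y, hyS⟩, ?_, rfl⟩
        simp only [mem_filter, mem_univ, true_and]
        have b1 := (g y).2
        have c1 : (g y).val / 2 < k / 2 := by omega
        simp only [F, c1, dif_pos]
        omega
  rw [sum_congr rfl hval]
  rw [← sum_image (f := fun z : ({x // x ∉ S} → Fin (k / 2)) × ({x // x ∈ S} → Fin ((k + 1) / 2)) =>
    ∏ x, 2 ^ adj z.1 (z.2 x).val) hinj]
  refine sum_le_sum_of_subset ?_
  intro z hz
  obtain ⟨g, hg, rfl⟩ := mem_image.1 hz
  exact hsurj g hg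

lemma one_add_pow_le_three (m L : ℕ) (h : m ≤ 2 ^ L) : (1 + (1 / 2 : ℝ) ^ L) ^ m ≤ 3 := by
  have h1 : (1 + (1 / 2 : ℝ) ^ L) ≤ Real.exp ((1 / 2 : ℝ) ^ L) := by
    have := Real.add_one_le_exp ((1 / 2 : ℝ) ^ L)
    linarith
  have h2 : (1 + (1 / 2 : ℝ) ^ L) ^ m ≤ Real.exp (m * (1 / 2 : ℝ) ^ L) := by
    rw [Real.exp_nat_mul]
    exact pow_le_pow_left₀ (by positivity) h1 m
  have h3 : (m : ℝ) * (1 / 2 : ℝ) ^ L ≤ 1 := by
    have : (m : ℝ) ≤ 2 ^ L := by exact_mod_cast h
    calc (m : ℝ) * (1 / 2 : ℝ) ^ L ≤ 2 ^ L * (1 / 2 : ℝ) ^ L := by gcongr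
      _ = 1 := by rw [← mul_pow]; norm_num
  have h4 := Real.exp_le_exp.2 h3
  have h5 := Real.exp_one_lt_d9
  linarith

lemma lemmaQ (m t L q : ℕ) (ht1 : 1 ≤ t) (hm : m ≤ 2 ^ L) (ht : t ≤ 2 ^ L) (hL : 3 * L ^ 2 ≤ m) :
    (1 + (1 / 2 : ℝ) ^ q) ^ m ≤ 3 * 2 ^ (max m t) * ((1 / (t : ℝ)) ^ q + (1 / 2) ^ t) := by
  have ht0 : (0 : ℝ) < t := by exact_mod_cast ht1
  rcases Nat.eq_zero_or_pos q with hq | hq
  · subst hq
    have h1 : (2 : ℝ) ^ m ≤ 2 ^ (max m t) := pow_le_pow_right₀ (by norm_num) (le_max_left _ _)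
    have h2 : (0 : ℝ) ≤ (1 / 2 : ℝ) ^ t := by positivity
    have h3 : (0 : ℝ) ≤ 2 ^ (max m t) := by positivity
    have h4 : (1 + (1 / 2 : ℝ) ^ 0) ^ m = 2 ^ m := by norm_num
    rw [h4, pow_zero]
    nlinarith [mul_nonneg h3 h2]
  by_cases hqL : L ≤ q
  · have h1 : (1 + (1 / 2 : ℝ) ^ q) ^ m ≤ 3 := by
      refine le_trans (pow_le_pow_left₀ (by positivity) ?_ m) (one_add_pow_le_three m L hm)
      have : (1 / 2 : ℝ) ^ q ≤ (1 / 2) ^ L := pow_le_pow_of_le_one (by norm_num) (by norm_num) hqL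
      linarith
    have h2 : (1 : ℝ) ≤ 2 ^ (max m t) * (1 / 2) ^ t := by
      calc (1 : ℝ) = 2 ^ t * (1 / 2) ^ t := by rw [← mul_pow]; norm_num
        _ ≤ 2 ^ (max m t) * (1 / 2) ^ t := by
          gcongr
          · norm_num
          · exact le_max_right _ _
    have h3 : (0 : ℝ) ≤ 2 ^ (max m t) * (1 / (t : ℝ)) ^ q := by positivity
    calc (1 + (1 / 2 : ℝ) ^ q) ^ m ≤ 3 := h1
      _ ≤ 3 * (2 ^ (max m t) * (1 / (t : ℝ)) ^ q + 2 ^ (max m t) * (1 / 2) ^ t) := by linarith
      _ = _ := by ring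
  · push Not at hqL
    have h1 : (1 + (1 / 2 : ℝ) ^ q) ^ m ≤ (3 / 2) ^ m := by
      refine pow_le_pow_left₀ (by positivity) ?_ m
      have : (1 / 2 : ℝ) ^ q ≤ (1 / 2) ^ 1 := pow_le_pow_of_le_one (by norm_num) (by norm_num) hq
      linarith
    have h2 : (2 : ℝ) ^ (L ^ 2) ≤ (4 / 3) ^ m := by
      calc (2 : ℝ) ^ (L ^ 2) ≤ ((4 / 3) ^ 3) ^ (L ^ 2) := by
            refine pow_le_pow_left₀ (by norm_num) (by norm_num) _
        _ = (4 / 3) ^ (3 * L ^ 2) := by rw [← pow_mul]
        _ ≤ (4 / 3) ^ m := pow_le_pow_right₀ (by norm_num) hL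
    have h3 : (t : ℝ) ^ q ≤ 2 ^ (L ^ 2) := by
      have : (t : ℝ) ≤ 2 ^ L := by exact_mod_cast ht
      calc (t : ℝ) ^ q ≤ (2 ^ L) ^ q := pow_le_pow_left₀ ht0.le this q
        _ = 2 ^ (L * q) := by rw [← pow_mul]
        _ ≤ 2 ^ (L ^ 2) := by
          refine pow_le_pow_right₀ (by norm_num) ?_
          nlinarith
    have h4 : (3 / 2 : ℝ) ^ m * t ^ q ≤ 2 ^ m := by
      calc (3 / 2 : ℝ) ^ m * t ^ q ≤ (3 / 2 : ℝ) ^ m * (4 / 3) ^ m := by
            gcongr; exact h3.trans h2
        _ = 2 ^ m := by rw [← mul_pow]; norm_num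
    have h5 : (3 / 2 : ℝ) ^ m ≤ 2 ^ m * (1 / (t : ℝ)) ^ q := by
      rw [one_div, inv_pow, ← div_eq_mul_inv, le_div_iff₀ (by positivity)]
      exact h4
    have h6 : (2 : ℝ) ^ m * (1 / (t : ℝ)) ^ q ≤ 2 ^ (max m t) * (1 / (t : ℝ)) ^ q := by
      gcongr
      · norm_num
      · exact le_max_left _ _
    have h7 : (0 : ℝ) ≤ 2 ^ (max m t) * (1 / (t : ℝ)) ^ q := by positivity
    have h8 : (0 : ℝ) ≤ 2 ^ (max m t) * (1 / 2 : ℝ) ^ t := by positivity
    calc (1 + (1 / 2 : ℝ) ^ q) ^ m ≤ 2 ^ (max m t) * (1 / (t : ℝ)) ^ q := by linarith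
      _ ≤ 3 * (2 ^ (max m t) * (1 / (t : ℝ)) ^ q + 2 ^ (max m t) * (1 / 2) ^ t) := by linarith
      _ = _ := by ring

/-- exchanging powers of `t` against powers of `2 ^ m`. -/
lemma excess (t m L r c : ℕ) (ht : t ≤ 2 ^ L) (hm : 2 * L ≤ m) (hcr : c ≤ r) (hrt : r ≤ t) :
    (t : ℝ) ^ (2 * r) * 2 ^ ((t - r) * m) ≤ (t : ℝ) ^ (2 * c) * 2 ^ ((t - c) * m) := by
  obtain ⟨d, rfl⟩ := Nat.exists_eq_add_of_le hcr
  have e1 : (t - c) * m = (t - (c + d)) * m + d * m := by
    rw [← add_mul]; congr 1; omega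
  have h1 : (t : ℝ) ^ 2 ≤ 2 ^ m := by
    have : (t : ℝ) ≤ 2 ^ L := by exact_mod_cast ht
    calc (t : ℝ) ^ 2 ≤ (2 ^ L) ^ 2 := pow_le_pow_left₀ (by positivity) this 2
      _ = 2 ^ (2 * L) := by rw [← pow_mul, mul_comm]
      _ ≤ 2 ^ m := pow_le_pow_right₀ (by norm_num) hm
  have h2 : ((t : ℝ) ^ 2) ^ d ≤ 2 ^ (d * m) := by
    calc ((t : ℝ) ^ 2) ^ d ≤ (2 ^ m) ^ d := pow_le_pow_left₀ (by positivity) h1 d
      _ = 2 ^ (d * m) := by rw [← pow_mul, mul_comm]
  calc (t : ℝ) ^ (2 * (c + d)) * 2 ^ ((t - (c + d)) * m)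
      = (t : ℝ) ^ (2 * c) * 2 ^ ((t - (c + d)) * m) * ((t : ℝ) ^ 2) ^ d := by
        rw [← pow_mul, mul_add, pow_add]; ring
    _ ≤ (t : ℝ) ^ (2 * c) * 2 ^ ((t - (c + d)) * m) * 2 ^ (d * m) := by gcongr
    _ = _ := by rw [e1, pow_add]; ring

/-- The main case. -/
lemma main_case (t m L o e p p' d r X : ℕ) (ht1 : 1 ≤ t) (hm : m ≤ 2 ^ L) (ht : t ≤ 2 ^ L)
    (hL1 : 1 ≤ L) (hoL : o + 1 ≤ 2 ^ L)
    (hm2 : 16 * L ^ 2 ≤ m) (ht2 : 16 * L ^ 2 ≤ t) (hpp : p ≤ p') (hd1 : d ≤ p) (hd2 : d ≤ r)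
    (hsum : p + p' + r = t) (hr : 8 * r ≤ t) (he : e - 2 ≤ r)
    (hX : X ≤ 2 ^ (p + p') + 2 ^ (p' + d) + (o + 1) * 2 ^ (p + r)) :
    (X : ℝ) ^ m ≤ 9 * (t : ℝ) ^ (2 * (e - 2)) * 2 ^ ((t - (e - 2)) * m) * 2 ^ (max m t) *
      ((1 / (t : ℝ)) ^ (t - p') + (1 / 2) ^ t * (1 / (t : ℝ)) ^ (t - (p + p'))) := by
  have ht0 : (0 : ℝ) < t := by exact_mod_cast ht1
  have ht1' : (1 : ℝ) ≤ t := by exact_mod_cast ht1
  have hLL : L ≤ L ^ 2 := by nlinarith
  -- the small terms
  have h1 : ((o + 1 : ℕ) : ℝ) * 2 ^ (p + r) ≤ 2 ^ (p + p') * (1 / 2) ^ L := by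
    have e1 : p + p' = (p + r) + (p' - r) := by omega
    have e2 : p' - r = (p' - r - 2 * L) + 2 * L := by omega
    have h2 : ((o + 1 : ℕ) : ℝ) ≤ 2 ^ L := by exact_mod_cast hoL
    calc ((o + 1 : ℕ) : ℝ) * 2 ^ (p + r) ≤ 2 ^ L * 2 ^ (p + r) := by gcongr
      _ ≤ 2 ^ L * 2 ^ (p + r) * 2 ^ (p' - r - 2 * L) := by
        have : (1 : ℝ) ≤ 2 ^ (p' - r - 2 * L) := one_le_pow₀ (by norm_num)
        nlinarith [show (0 : ℝ) < 2 ^ L * 2 ^ (p + r) by positivity]
      _ = 2 ^ (p + p') * (1 / 2) ^ L := by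
        have e3 : (2 : ℝ) ^ (p + p') = 2 ^ (p + r) * (2 ^ (p' - r - 2 * L) * (2 ^ L * 2 ^ L)) := by
          rw [← pow_add, ← pow_add, ← pow_add]; congr 1; omega
        have e4 : (2 : ℝ) ^ L * (1 / 2) ^ L = 1 := by rw [← mul_pow]; norm_num
        rw [e3]
        linear_combination (- 2 ^ (p + r) * 2 ^ (p' - r - 2 * L) * 2 ^ L) * e4
  have h2 : (2 : ℝ) ^ (p' + d) = 2 ^ (p + p') * (1 / 2) ^ (p - d) := by
    have e1 : p + p' = (p' + d) + (p - d) := by omega
    rw [e1, pow_add 2 (p' + d), mul_assoc, ← mul_pow]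
    norm_num
  have hX1 : (X : ℝ) ≤ 2 ^ (p + p') * ((1 + (1 / 2) ^ (p - d)) * (1 + (1 / 2) ^ L)) := by
    have hX' : (X : ℝ) ≤ 2 ^ (p + p') + 2 ^ (p' + d) + ((o + 1 : ℕ) : ℝ) * 2 ^ (p + r) := by
      exact_mod_cast hX
    have h3 : (0 : ℝ) ≤ 2 ^ (p + p') * ((1 / 2) ^ (p - d) * (1 / 2) ^ L) := by positivity
    calc (X : ℝ) ≤ 2 ^ (p + p') + 2 ^ (p + p') * (1 / 2) ^ (p - d) +
          2 ^ (p + p') * (1 / 2) ^ L := by rw [← h2]; linarith
      _ ≤ _ := by nlinarith
  have hX2 : (X : ℝ) ^ m ≤ 2 ^ ((t - r) * m) * ((3 * 2 ^ (max m t) *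
      ((1 / (t : ℝ)) ^ (p - d) + (1 / 2) ^ t)) * 3) := by
    calc (X : ℝ) ^ m ≤ (2 ^ (p + p') * ((1 + (1 / 2) ^ (p - d)) * (1 + (1 / 2) ^ L))) ^ m :=
          pow_le_pow_left₀ (by positivity) hX1 m
      _ = 2 ^ ((t - r) * m) * ((1 + (1 / 2) ^ (p - d)) ^ m * (1 + (1 / 2) ^ L) ^ m) := by
          rw [mul_pow, mul_pow, ← pow_mul]
          congr 3
          omega
      _ ≤ _ := by
          gcongr
          · exact lemmaQ m t L (p - d) ht1 hm ht (by omega)
          · exact one_add_pow_le_three m L hm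
  have h3 : (1 / (t : ℝ)) ^ (p - d) ≤ t ^ (2 * r) * (1 / (t : ℝ)) ^ (t - p') := by
    have e1 : t - p' = (p - d) + (d + r) := by omega
    rw [e1, pow_add]
    have : (1 : ℝ) ≤ t ^ (2 * r) * (1 / (t : ℝ)) ^ (d + r) := by
      rw [one_div, inv_pow, ← div_eq_mul_inv, one_le_div (by positivity)]
      exact pow_le_pow_right₀ ht1' (by omega)
    have h4 : (0 : ℝ) ≤ (1 / (t : ℝ)) ^ (p - d) := by positivity
    nlinarith
  have h4 : (1 / 2 : ℝ) ^ t ≤ t ^ (2 * r) * ((1 / 2) ^ t * (1 / (t : ℝ)) ^ (t - (p + p'))) := by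
    have e1 : t - (p + p') = r := by omega
    rw [e1]
    have : (1 : ℝ) ≤ t ^ (2 * r) * (1 / (t : ℝ)) ^ r := by
      rw [one_div, inv_pow, ← div_eq_mul_inv, one_le_div (by positivity)]
      exact pow_le_pow_right₀ ht1' (by omega)
    have h4 : (0 : ℝ) ≤ (1 / 2 : ℝ) ^ t := by positivity
    nlinarith
  have h5 := excess t m L r (e - 2) ht (by nlinarith) he (by omega)
  set U : ℝ := (1 / (t : ℝ)) ^ (t - p') + (1 / 2) ^ t * (1 / (t : ℝ)) ^ (t - (p + p')) with hU
  have hU0 : 0 ≤ U := by positivity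
  calc (X : ℝ) ^ m ≤ 2 ^ ((t - r) * m) * ((3 * 2 ^ (max m t) *
      ((1 / (t : ℝ)) ^ (p - d) + (1 / 2) ^ t)) * 3) := hX2
    _ ≤ 2 ^ ((t - r) * m) * ((3 * 2 ^ (max m t) * (t ^ (2 * r) * U)) * 3) := by
        have : (1 / (t : ℝ)) ^ (p - d) + (1 / 2) ^ t ≤ t ^ (2 * r) * U := by
          rw [hU, mul_add]; linarith
        gcongr
    _ = (t ^ (2 * r) * 2 ^ ((t - r) * m)) * (9 * 2 ^ (max m t) * U) := by ring
    _ ≤ ((t : ℝ) ^ (2 * (e - 2)) * 2 ^ ((t - (e - 2)) * m)) * (9 * 2 ^ (max m t) * U) := by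
        gcongr
    _ = _ := by ring

/-- The crude case. -/
lemma crude_case (t m L o e r X : ℕ) (ht1 : 1 ≤ t) (ht : t ≤ 2 ^ L)
    (hL1 : 1 ≤ L) (hoL : o + e ≤ L)
    (hm2 : 16 * L ^ 2 ≤ m) (ht2 : 16 * L ^ 2 ≤ t) (hr : t < 8 * r) (hrt : r ≤ t)
    (hX : X ≤ o * 2 ^ (t - r)) :
    (X : ℝ) ^ m ≤ 9 * (t : ℝ) ^ (2 * (e - 2)) * 2 ^ ((t - (e - 2)) * m) * 2 ^ (max m t) *
      (1 / (t : ℝ)) ^ t := by
  have ht0 : (0 : ℝ) < t := by exact_mod_cast ht1
  have ht1' : (1 : ℝ) ≤ t := by exact_mod_cast ht1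
  have hLL : L ≤ L ^ 2 := by nlinarith
  have hexp : o * m + (t - r) * m + L * t ≤ (t - (e - 2)) * m := by
    have h1 : e - 2 ≤ t := by omega
    have h2 : (o + e) * m ≤ L * m := Nat.mul_le_mul_right _ hoL
    zify [hrt, h1]
    have h3 : ((e - 2 : ℕ) : ℤ) ≤ e := by omega
    have h4 : (16 : ℤ) * L ≤ t := by nlinarith
    have h5 : (16 : ℤ) * L ≤ m := by nlinarith
    have h6 : (t : ℤ) < 8 * r := by exact_mod_cast hr
    have h7 : ((o : ℤ) + e) * m ≤ L * m := by exact_mod_cast h2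
    have hm0 : (0 : ℤ) ≤ m := by positivity
    have ht0' : (0 : ℤ) ≤ t := by positivity
    nlinarith [mul_le_mul_of_nonneg_right h4 hm0, mul_le_mul_of_nonneg_right h5 ht0',
      mul_le_mul_of_nonneg_right h6.le hm0, mul_le_mul_of_nonneg_right h3 hm0]
  have h1 : (X : ℝ) ≤ 2 ^ o * 2 ^ (t - r) := by
    have h2 : (X : ℝ) ≤ o * 2 ^ (t - r) := by exact_mod_cast hX
    have h3 : (o : ℝ) ≤ 2 ^ o := by exact_mod_cast (Nat.lt_two_pow_self).le
    calc (X : ℝ) ≤ o * 2 ^ (t - r) := h2
      _ ≤ _ := by gcongr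
  have h2 : (X : ℝ) ^ m ≤ 2 ^ (o * m + (t - r) * m) := by
    calc (X : ℝ) ^ m ≤ (2 ^ o * 2 ^ (t - r)) ^ m := pow_le_pow_left₀ (by positivity) h1 m
      _ = _ := by rw [← pow_add, ← pow_mul, add_mul]
  have h3 : (t : ℝ) ^ t ≤ 2 ^ (L * t) := by
    have : (t : ℝ) ≤ 2 ^ L := by exact_mod_cast ht
    calc (t : ℝ) ^ t ≤ (2 ^ L) ^ t := pow_le_pow_left₀ (by positivity) this t
      _ = _ := by rw [← pow_mul]
  have h4 : (X : ℝ) ^ m * t ^ t ≤ 2 ^ ((t - (e - 2)) * m) := by
    calc (X : ℝ) ^ m * t ^ t ≤ 2 ^ (o * m + (t - r) * m) * 2 ^ (L * t) := by gcongr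
      _ = 2 ^ (o * m + (t - r) * m + L * t) := by rw [← pow_add]
      _ ≤ _ := pow_le_pow_right₀ (by norm_num) hexp
  have h5 : (X : ℝ) ^ m ≤ 2 ^ ((t - (e - 2)) * m) * (1 / (t : ℝ)) ^ t := by
    rw [one_div, inv_pow, ← div_eq_mul_inv, le_div_iff₀ (by positivity)]
    exact h4
  have h6 : (1 : ℝ) ≤ 9 * (t : ℝ) ^ (2 * (e - 2)) * 2 ^ (max m t) := by
    have a1 : (1 : ℝ) ≤ (t : ℝ) ^ (2 * (e - 2)) := one_le_pow₀ ht1'
    have a2 : (1 : ℝ) ≤ 2 ^ (max m t) := one_le_pow₀ (by norm_num)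
    nlinarith
  calc (X : ℝ) ^ m ≤ 2 ^ ((t - (e - 2)) * m) * (1 / (t : ℝ)) ^ t := h5
    _ ≤ (2 ^ ((t - (e - 2)) * m) * (1 / (t : ℝ)) ^ t) *
        (9 * (t : ℝ) ^ (2 * (e - 2)) * 2 ^ (max m t)) := by
        have : (0 : ℝ) ≤ 2 ^ ((t - (e - 2)) * m) * (1 / (t : ℝ)) ^ t := by positivity
        nlinarith
    _ = _ := by ring

lemma pointwise (t m L o e : ℕ) (N : ℕ → ℕ) (ht1 : 1 ≤ t) (hm : m ≤ 2 ^ L) (ht : t ≤ 2 ^ L)
    (hL1 : 1 ≤ L) (hoL : o + e ≤ L) (ho : 1 ≤ o) (he : 1 ≤ e)
    (hm2 : 16 * L ^ 2 ≤ m) (ht2 : 16 * L ^ 2 ≤ t)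
    (hN0 : N 0 = 0) (hN1 : ∀ j, 1 ≤ j → j ≤ e → 1 ≤ N j) (hN2 : ∀ j, e < j → N j = 0)
    (hJ : ∀ J : Finset ℕ, ∑ j ∈ J, N j ≤ t) :
    ((∑ i ∈ range o, 2 ^ (N i + N (i + 1)) : ℕ) : ℝ) ^ m ≤
      9 * (t : ℝ) ^ (2 * (e - 2)) * 2 ^ ((t - (e - 2)) * m) * 2 ^ (max m t) *
      (∑ j ∈ range e, (1 / (t : ℝ)) ^ (t - N (j + 1)) +
        ∑ i ∈ range o, (1 / 2) ^ t * (1 / (t : ℝ)) ^ (t - (N i + N (i + 1)))) := by
  have ht1' : (1 : ℝ) ≤ t := by exact_mod_cast ht1
  have ht0 : (0 : ℝ) < t := by linarith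
  have hinv0 : (0 : ℝ) ≤ 1 / (t : ℝ) := by positivity
  have hinv1 : 1 / (t : ℝ) ≤ 1 := by rw [div_le_one ht0]; exact ht1'
  have hoL2 : o + 1 ≤ 2 ^ L := by
    have : L < 2 ^ L := Nat.lt_two_pow_self
    omega
  obtain ⟨i0, hi0, hmax⟩ := exists_max_image (range o) (fun i => N i + N (i + 1))
    ⟨0, mem_range.2 (by omega)⟩
  have hA : N i0 + N (i0 + 1) ≤ t := by
    have := hJ {i0, i0 + 1}
    rwa [sum_pair (by omega)] at this
  obtain ⟨r, hr⟩ : ∃ r, r = t - (N i0 + N (i0 + 1)) := ⟨_, rfl⟩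
  have hsum : N i0 + N (i0 + 1) + r = t := by omega
  have F1 : e - 2 ≤ r := by
    have h1 := hJ ((Icc 1 e \ {i0, i0 + 1}) ∪ {i0, i0 + 1})
    rw [sum_union (sdiff_disjoint), sum_pair (by omega)] at h1
    have h2 : (Icc 1 e \ {i0, i0 + 1}).card ≤ ∑ j ∈ Icc 1 e \ {i0, i0 + 1}, N j := by
      rw [card_eq_sum_ones]
      refine sum_le_sum fun j hj => ?_
      rw [mem_sdiff, mem_Icc] at hj
      exact hN1 j hj.1.1 hj.1.2
    have h3 : (Icc 1 e).card - ({i0, i0 + 1} : Finset ℕ).card ≤ (Icc 1 e \ {i0, i0 + 1}).card :=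
      le_card_sdiff _ _
    rw [Nat.card_Icc, card_pair (by omega)] at h3
    omega
  have F2 : ∀ j, j ≠ i0 → j ≠ i0 + 1 → N j ≤ r := by
    intro j h1 h2
    have := hJ {j, i0, i0 + 1}
    rw [sum_insert (by simp [h1, h2]), sum_pair (by omega)] at this
    omega
  have F3 : ∀ i, i ≠ i0 → i ≠ i0 + 1 → i + 1 ≠ i0 → N i + N (i + 1) ≤ r := by
    intro i h1 h2 h3
    have := hJ {i, i + 1, i0, i0 + 1}
    rw [sum_insert (by simp; omega), sum_insert (by simp; omega), sum_pair (by omega)] at this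
    omega
  have hterm : ∀ i ∈ range o, N i + N (i + 1) ≤ N i0 + N (i0 + 1) := hmax
  set U1 : ℝ := ∑ j ∈ range e, (1 / (t : ℝ)) ^ (t - N (j + 1)) with hU1
  set U2 : ℝ := ∑ i ∈ range o, (1 / 2 : ℝ) ^ t * (1 / (t : ℝ)) ^ (t - (N i + N (i + 1))) with hU2
  have hU20 : 0 ≤ U2 := sum_nonneg fun _ _ => by positivity
  have hU1j : ∀ j, j < e → (1 / (t : ℝ)) ^ (t - N (j + 1)) ≤ U1 := by
    intro j hj
    rw [hU1]
    exact single_le_sum (f := fun j => (1 / (t : ℝ)) ^ (t - N (j + 1)))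
      (fun _ _ => by positivity) (mem_range.2 hj)
  have hU2i : (1 / 2 : ℝ) ^ t * (1 / (t : ℝ)) ^ (t - (N i0 + N (i0 + 1))) ≤ U2 := by
    rw [hU2]
    exact single_le_sum (f := fun i => (1 / 2 : ℝ) ^ t * (1 / (t : ℝ)) ^ (t - (N i + N (i + 1))))
      (fun _ _ => by positivity) hi0
  by_cases hcase : 8 * r ≤ t
  · rcases le_total (N i0) (N (i0 + 1)) with hpp | hpp
    · -- the larger neighbour is `i0 + 1`
      obtain ⟨d, hd1, hd2, hd3⟩ : ∃ d, d ≤ N i0 ∧ d ≤ r ∧
          (i0 + 1 ∈ range o → N (i0 + 1 + 1) ≤ d) := by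
        by_cases h : i0 + 1 ∈ range o
        · refine ⟨N (i0 + 1 + 1), ?_, F2 _ (by omega) (by omega), fun _ => le_rfl⟩
          have := hterm _ h
          omega
        · exact ⟨0, by omega, by omega, fun h' => absurd h' h⟩
      have hX : (∑ i ∈ range o, 2 ^ (N i + N (i + 1)) : ℕ) ≤
          2 ^ (N i0 + N (i0 + 1)) + 2 ^ (N (i0 + 1) + d) + (o + 1) * 2 ^ (N i0 + r) := by
        calc (∑ i ∈ range o, 2 ^ (N i + N (i + 1)) : ℕ) ≤
            ∑ i ∈ range o, ((if i = i0 then 2 ^ (N i0 + N (i0 + 1)) else 0) +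
              (if i = i0 + 1 then 2 ^ (N (i0 + 1) + d) else 0) + 2 ^ (N i0 + r)) := by
              refine sum_le_sum fun i hi => ?_
              by_cases h1 : i = i0
              · subst h1; simp only [if_true]
                exact le_trans (Nat.le_add_right _ _) (Nat.le_add_right _ _)
              · by_cases h2 : i = i0 + 1
                · subst h2
                  have h3 := hd3 hi
                  have h4 : 2 ^ (N (i0 + 1) + N (i0 + 1 + 1)) ≤ 2 ^ (N (i0 + 1) + d) :=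
                    Nat.pow_le_pow_right (by norm_num) (by omega)
                  simp only [if_true]
                  exact h4.trans (le_trans (Nat.le_add_left _ _) (Nat.le_add_right _ _))
                · by_cases h3 : i + 1 = i0
                  · have h4 := F2 i (by omega) (by omega)
                    have h5 : 2 ^ (N i + N (i + 1)) ≤ 2 ^ (N i0 + r) := by
                      rw [h3]; exact Nat.pow_le_pow_right (by norm_num) (by omega)
                    omega
                  · have h4 := F3 i h1 h2 h3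
                    have h5 : 2 ^ (N i + N (i + 1)) ≤ 2 ^ (N i0 + r) :=
                      Nat.pow_le_pow_right (by norm_num) (by omega)
                    omega
          _ ≤ _ := by
            rw [sum_add_distrib, sum_add_distrib, sum_const, card_range, smul_eq_mul,
              sum_ite_eq', if_pos hi0, sum_ite_eq']
            split_ifs
            · nlinarith [Nat.zero_le (2 ^ (N i0 + r))]
            · nlinarith [Nat.zero_le (2 ^ (N i0 + r)), Nat.zero_le (2 ^ (N (i0 + 1) + d))]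
      have key := main_case t m L o e (N i0) (N (i0 + 1)) d r _ ht1 hm ht hL1 hoL2 hm2 ht2 hpp
        hd1 hd2 hsum hcase F1 hX
      refine key.trans ?_
      have hlt : i0 < e := by
        by_contra hcon
        have := hN2 (i0 + 1) (by omega)
        omega
      have h1 := hU1j i0 hlt
      gcongr
    · obtain ⟨d, hd1, hd2, hd3⟩ : ∃ d, d ≤ N (i0 + 1) ∧ d ≤ r ∧
          (∀ i ∈ range o, i + 1 = i0 → N i ≤ d) := by
        by_cases h : ∃ i ∈ range o, i + 1 = i0
        · obtain ⟨i, hi, hii⟩ := h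
          refine ⟨N i, ?_, F2 _ (by omega) (by omega), fun i' _ h' => ?_⟩
          · have := hterm _ hi
            rw [hii] at this
            omega
          · have : i' = i := by omega
            rw [this]
        · exact ⟨0, by omega, by omega, fun i hi h' => absurd ⟨i, hi, h'⟩ h⟩
      have hX : (∑ i ∈ range o, 2 ^ (N i + N (i + 1)) : ℕ) ≤
          2 ^ (N (i0 + 1) + N i0) + 2 ^ (N i0 + d) + (o + 1) * 2 ^ (N (i0 + 1) + r) := by
        calc (∑ i ∈ range o, 2 ^ (N i + N (i + 1)) : ℕ) ≤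
            ∑ i ∈ range o, ((if i = i0 then 2 ^ (N (i0 + 1) + N i0) else 0) +
              (if i = i0 - 1 then 2 ^ (N i0 + d) else 0) + 2 ^ (N (i0 + 1) + r)) := by
              refine sum_le_sum fun i hi => ?_
              by_cases h1 : i = i0
              · subst h1; simp only [if_true]; rw [add_comm (N i)]
                exact le_trans (Nat.le_add_right _ _) (Nat.le_add_right _ _)
              · by_cases h2 : i + 1 = i0
                · have h3 := hd3 i hi h2
                  have h4 : 2 ^ (N i + N (i + 1)) ≤ 2 ^ (N i0 + d) := by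
                    rw [h2]; exact Nat.pow_le_pow_right (by norm_num) (by omega)
                  rw [if_pos (show i = i0 - 1 by omega)]
                  exact h4.trans (le_trans (Nat.le_add_left _ _) (Nat.le_add_right _ _))
                · by_cases h3 : i = i0 + 1
                  · subst h3
                    have h4 := F2 (i0 + 1 + 1) (by omega) (by omega)
                    have h5 : 2 ^ (N (i0 + 1) + N (i0 + 1 + 1)) ≤ 2 ^ (N (i0 + 1) + r) :=
                      Nat.pow_le_pow_right (by norm_num) (by omega)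
                    omega
                  · have h4 := F3 i h1 h3 h2
                    have h5 : 2 ^ (N i + N (i + 1)) ≤ 2 ^ (N (i0 + 1) + r) :=
                      Nat.pow_le_pow_right (by norm_num) (by omega)
                    omega
          _ ≤ _ := by
            rw [sum_add_distrib, sum_add_distrib, sum_const, card_range, smul_eq_mul,
              sum_ite_eq', if_pos hi0, sum_ite_eq']
            split_ifs
            · nlinarith [Nat.zero_le (2 ^ (N (i0 + 1) + r))]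
            · nlinarith [Nat.zero_le (2 ^ (N (i0 + 1) + r)), Nat.zero_le (2 ^ (N i0 + d))]
      have key := main_case t m L o e (N (i0 + 1)) (N i0) d r _ ht1 hm ht hL1 hoL2 hm2 ht2 hpp
        hd1 hd2 (by omega) hcase F1 hX
      refine key.trans ?_
      have hpos : 1 ≤ i0 := by
        by_contra hcon
        have h0 : i0 = 0 := by omega
        rw [h0] at hpp hsum
        simp only [zero_add] at hpp hsum
        omega
      have hlt : i0 - 1 < e := by
        by_contra hcon
        have := hN2 i0 (by omega)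
        omega
      have h1 := hU1j (i0 - 1) hlt
      rw [show i0 - 1 + 1 = i0 by omega] at h1
      rw [add_comm (N (i0 + 1)) (N i0)]
      gcongr
  · push Not at hcase
    have hX : (∑ i ∈ range o, 2 ^ (N i + N (i + 1)) : ℕ) ≤ o * 2 ^ (t - r) := by
      calc (∑ i ∈ range o, 2 ^ (N i + N (i + 1)) : ℕ) ≤ ∑ i ∈ range o, 2 ^ (t - r) := by
            refine sum_le_sum fun i hi => Nat.pow_le_pow_right (by norm_num) ?_
            have := hterm i hi
            omega
        _ = _ := by rw [sum_const, card_range, smul_eq_mul]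
    have key := crude_case t m L o e r _ ht1 ht hL1 hoL hm2 ht2 hcase (by omega) hX
    refine key.trans ?_
    have h1 := hU1j 0 (by omega)
    have h2 : (1 / (t : ℝ)) ^ t ≤ (1 / (t : ℝ)) ^ (t - N (0 + 1)) :=
      pow_le_pow_of_le_one hinv0 hinv1 (by omega)
    have h3 : (1 / (t : ℝ)) ^ t ≤ U1 + U2 := by linarith
    gcongr

/-! ### Summing over the even levels -/

section psi

variable {γ : Type*} [Fintype γ] [DecidableEq γ] {e : ℕ}

omit [DecidableEq γ] in
lemma sum_cnt_le (ψ : γ → Fin e) (J : Finset ℕ) : ∑ j ∈ J, cnt ψ j ≤ Fintype.card γ := by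
  classical
  unfold cnt
  rw [← card_biUnion]
  · exact card_le_univ _
  · intro i _ j _ hij
    rw [Function.onFun, disjoint_left]
    intro y h1 h2
    rw [mem_filter] at h1 h2
    exact hij (h1.2.symm.trans h2.2)

lemma sum_weights (P : Fin e → Prop) [DecidablePred P] (x : ℝ) :
    ∑ ψ : γ → Fin e, x ^ (univ.filter (fun y => ¬ P (ψ y))).card =
      ((univ.filter P).card + (univ.filter (fun c => ¬ P c)).card * x) ^ Fintype.card γ := by
  have h1 : ∑ c : Fin e, (if P c then (1 : ℝ) else x) =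
      ((univ.filter P).card + (univ.filter (fun c => ¬ P c)).card * x) := by
    rw [sum_ite]
    simp
  rw [← h1, ← Finset.card_univ, ← prod_const, Finset.prod_univ_sum, Fintype.piFinset_univ]
  refine sum_congr rfl fun ψ _ => ?_
  rw [prod_ite]
  simp

lemma one_add_div_pow_le (t e : ℕ) (ht : 1 ≤ t) : (1 + (e : ℝ) / t) ^ t ≤ 3 ^ e := by
  have ht0 : (0 : ℝ) < t := by exact_mod_cast ht
  have h1 : 1 + (e : ℝ) / t ≤ Real.exp ((e : ℝ) / t) := by
    have := Real.add_one_le_exp ((e : ℝ) / t)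
    linarith
  calc (1 + (e : ℝ) / t) ^ t ≤ (Real.exp ((e : ℝ) / t)) ^ t :=
        pow_le_pow_left₀ (by positivity) h1 t
    _ = Real.exp e := by
      rw [← Real.exp_nat_mul]
      congr 1
      field_simp
    _ = (Real.exp 1) ^ e := by rw [← Real.exp_nat_mul, mul_one]
    _ ≤ 3 ^ e := by
      refine pow_le_pow_left₀ (Real.exp_pos _).le ?_ e
      have := Real.exp_one_lt_d9
      linarith

lemma sum_u1 (t : ℕ) (ht : Fintype.card γ = t) (ht1 : 1 ≤ t) (j : ℕ) (hj : j < e) :
    ∑ ψ : γ → Fin e, (1 / (t : ℝ)) ^ (t - cnt ψ (j + 1)) ≤ 3 ^ e := by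
  classical
  have ht0 : (0 : ℝ) < t := by exact_mod_cast ht1
  have h1 : ∀ ψ : γ → Fin e, t - cnt ψ (j + 1) =
      (univ.filter (fun y => ¬ ((ψ y).val + 1 = j + 1))).card := by
    intro ψ
    have := Finset.card_filter_add_card_filter_not (s := (univ : Finset γ))
      (fun y => (ψ y).val + 1 = j + 1)
    rw [card_univ, ht] at this
    unfold cnt
    omega
  simp only [h1]
  rw [sum_weights (fun c : Fin e => c.val + 1 = j + 1) (1 / (t : ℝ)), ht]
  have h2 : (univ.filter (fun c : Fin e => c.val + 1 = j + 1)) = {⟨j, hj⟩} := by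
    ext c
    simp only [mem_filter, mem_univ, true_and, mem_singleton, Fin.ext_iff]
    omega
  have h3 : ((univ.filter (fun c : Fin e => ¬ (c.val + 1 = j + 1))).card : ℝ) ≤ e := by
    have := card_le_univ (univ.filter (fun c : Fin e => ¬ (c.val + 1 = j + 1)))
    rw [Fintype.card_fin] at this
    exact_mod_cast this
  refine le_trans (pow_le_pow_left₀ (by positivity) ?_ t) (one_add_div_pow_le t e ht1)
  rw [h2, card_singleton, Nat.cast_one]
  have : ((univ.filter (fun c : Fin e => ¬ (c.val + 1 = j + 1))).card : ℝ) * (1 / (t : ℝ)) ≤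
      e * (1 / (t : ℝ)) := by gcongr
  rw [mul_one_div (e : ℝ)] at this
  linarith

lemma sum_u2 (t : ℕ) (ht : Fintype.card γ = t) (ht1 : 1 ≤ t) (i : ℕ) :
    ∑ ψ : γ → Fin e, (1 / 2 : ℝ) ^ t * (1 / (t : ℝ)) ^ (t - (cnt ψ i + cnt ψ (i + 1))) ≤
      3 ^ e := by
  classical
  have ht0 : (0 : ℝ) < t := by exact_mod_cast ht1
  have h1 : ∀ ψ : γ → Fin e, t - (cnt ψ i + cnt ψ (i + 1)) =
      (univ.filter (fun y => ¬ ((ψ y).val + 1 = i ∨ (ψ y).val + 1 = i + 1))).card := by
    intro ψ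
    have h := Finset.card_filter_add_card_filter_not (s := (univ : Finset γ))
      (fun y => (ψ y).val + 1 = i ∨ (ψ y).val + 1 = i + 1)
    have h' : (univ.filter (fun y => (ψ y).val + 1 = i ∨ (ψ y).val + 1 = i + 1)).card =
        cnt ψ i + cnt ψ (i + 1) := by
      unfold cnt
      rw [filter_or, card_union_of_disjoint]
      rw [disjoint_left]
      intro y hy1 hy2
      rw [mem_filter] at hy1 hy2
      omega
    rw [card_univ, ht, h'] at h
    omega
  simp only [h1]
  rw [← mul_sum, sum_weights (fun c : Fin e => c.val + 1 = i ∨ c.val + 1 = i + 1) (1 / (t : ℝ)), ht]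
  have h2 : ((univ.filter (fun c : Fin e => c.val + 1 = i ∨ c.val + 1 = i + 1)).card : ℝ) ≤ 2 := by
    have : (univ.filter (fun c : Fin e => c.val + 1 = i ∨ c.val + 1 = i + 1)).card ≤ 2 := by
      have h4 : ((univ.filter (fun c : Fin e => c.val + 1 = i ∨ c.val + 1 = i + 1)).image
          (fun c => c.val + 1)) ⊆ {i, i + 1} := by
        intro x hx
        obtain ⟨c, hc, rfl⟩ := mem_image.1 hx
        rw [mem_filter] at hc
        simp only [mem_insert, mem_singleton]
        exact hc.2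
      have h5 := card_le_card h4
      rw [card_image_of_injective _ (fun a b h => Fin.ext (by simpa using h)), card_pair (by omega)]
        at h5
      exact h5
    exact_mod_cast this
  have h3 : ((univ.filter (fun c : Fin e => ¬ (c.val + 1 = i ∨ c.val + 1 = i + 1))).card : ℝ) ≤
      e := by
    have := card_le_univ (univ.filter (fun c : Fin e => ¬ (c.val + 1 = i ∨ c.val + 1 = i + 1)))
    rw [Fintype.card_fin] at this
    exact_mod_cast this
  rw [← mul_pow]
  refine le_trans (pow_le_pow_left₀ (by positivity) ?_ t) (one_add_div_pow_le t e ht1)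
  have h6 : ((univ.filter (fun c : Fin e => ¬ (c.val + 1 = i ∨ c.val + 1 = i + 1))).card : ℝ) *
      (1 / (t : ℝ)) ≤ e * (1 / (t : ℝ)) := by gcongr
  rw [mul_one_div (e : ℝ)] at h6
  have h7 : 0 ≤ (e : ℝ) / t := by positivity
  linarith

theorem sum_psi (t m L o : ℕ) (ht : Fintype.card γ = t) (ht1 : 1 ≤ t) (hm : m ≤ 2 ^ L)
    (htL : t ≤ 2 ^ L) (hL1 : 1 ≤ L) (hoL : o + e ≤ L) (ho : 1 ≤ o) (he : 1 ≤ e)
    (hm2 : 16 * L ^ 2 ≤ m) (ht2 : 16 * L ^ 2 ≤ t) :
    ∑ ψ ∈ univ.filter (fun ψ : γ → Fin e => Function.Surjective ψ),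
      ((∑ i : Fin o, 2 ^ adj ψ i.val : ℕ) : ℝ) ^ m ≤
      9 * (t : ℝ) ^ (2 * (e - 2)) * 2 ^ ((t - (e - 2)) * m) * 2 ^ (max m t) *
      ((e + o) * 3 ^ e) := by
  classical
  have ht0 : (0 : ℝ) < t := by exact_mod_cast ht1
  have h1 : ∀ ψ ∈ univ.filter (fun ψ : γ → Fin e => Function.Surjective ψ),
      ((∑ i : Fin o, 2 ^ adj ψ i.val : ℕ) : ℝ) ^ m ≤
      9 * (t : ℝ) ^ (2 * (e - 2)) * 2 ^ ((t - (e - 2)) * m) * 2 ^ (max m t) *
      (∑ j ∈ range e, (1 / (t : ℝ)) ^ (t - cnt ψ (j + 1)) +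
        ∑ i ∈ range o, (1 / 2) ^ t * (1 / (t : ℝ)) ^ (t - (cnt ψ i + cnt ψ (i + 1)))) := by
    intro ψ hψ
    rw [mem_filter] at hψ
    have h2 : (∑ i : Fin o, 2 ^ adj ψ i.val : ℕ) = ∑ i ∈ range o, 2 ^ (cnt ψ i + cnt ψ (i + 1)) := by
      rw [Finset.sum_range]; rfl
    rw [h2]
    refine pointwise t m L o e (cnt ψ) ht1 hm htL hL1 hoL ho he hm2 ht2 ?_ ?_ ?_ ?_
    · unfold cnt
      rw [card_eq_zero, filter_eq_empty_iff]
      intro y _
      omega
    · intro j hj1 hj2
      obtain ⟨y, hy⟩ := hψ.2 ⟨j - 1, by omega⟩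
      refine card_pos.2 ⟨y, ?_⟩
      rw [mem_filter, hy]
      exact ⟨mem_univ _, by simp only; omega⟩
    · intro j hj
      unfold cnt
      rw [card_eq_zero, filter_eq_empty_iff]
      intro y _
      have := (ψ y).2
      omega
    · intro J
      rw [← ht]
      exact sum_cnt_le ψ J
  refine (sum_le_sum h1).trans ?_
  rw [← mul_sum]
  have h3 : ∑ ψ ∈ univ.filter (fun ψ : γ → Fin e => Function.Surjective ψ),
      (∑ j ∈ range e, (1 / (t : ℝ)) ^ (t - cnt ψ (j + 1)) +
        ∑ i ∈ range o, (1 / 2 : ℝ) ^ t * (1 / (t : ℝ)) ^ (t - (cnt ψ i + cnt ψ (i + 1)))) ≤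
      (e + o) * 3 ^ e := by
    calc _ ≤ ∑ ψ : γ → Fin e,
          (∑ j ∈ range e, (1 / (t : ℝ)) ^ (t - cnt ψ (j + 1)) +
          ∑ i ∈ range o, (1 / 2 : ℝ) ^ t * (1 / (t : ℝ)) ^ (t - (cnt ψ i + cnt ψ (i + 1)))) := by
          refine sum_le_sum_of_subset_of_nonneg (filter_subset _ _) fun ψ _ _ => ?_
          exact add_nonneg (sum_nonneg fun _ _ => by positivity)
            (sum_nonneg fun _ _ => by positivity)
      _ = ∑ j ∈ range e, ∑ ψ : γ → Fin e, (1 / (t : ℝ)) ^ (t - cnt ψ (j + 1)) +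
          ∑ i ∈ range o, ∑ ψ : γ → Fin e,
            (1 / 2 : ℝ) ^ t * (1 / (t : ℝ)) ^ (t - (cnt ψ i + cnt ψ (i + 1))) := by
          rw [sum_add_distrib, sum_comm]
          congr 1
          rw [sum_comm]
      _ ≤ ∑ j ∈ range e, (3 : ℝ) ^ e + ∑ i ∈ range o, (3 : ℝ) ^ e := by
          refine add_le_add (sum_le_sum fun j hj => ?_) (sum_le_sum fun i _ => ?_)
          · exact sum_u1 t ht ht1 j (mem_range.1 hj)
          · exact sum_u2 t ht ht1 i
      _ = _ := by
          rw [sum_const, sum_const, card_range, card_range, nsmul_eq_mul, nsmul_eq_mul]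
          ring
  gcongr

end psi

/-! ### The upper bound -/

section upper2

/-- The contribution of the colourings with a given union of odd levels. -/
noncomputable def part (n k : ℕ) (S : Finset (Fin n)) : ℕ :=
  ∑ ψ ∈ univ.filter (fun ψ : {x // x ∉ S} → Fin (k / 2) => Function.Surjective ψ),
    ∑ φ ∈ univ.filter (fun φ : {x // x ∈ S} → Fin ((k + 1) / 2) => Function.Surjective φ),
      ∏ x, 2 ^ adj ψ (φ x).val

lemma card_compl_sub {n : ℕ} (S : Finset (Fin n)) :
    Fintype.card {x // x ∉ S} = n - S.card := by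
  rw [Fintype.card_subtype_compl, Fintype.card_fin, Fintype.card_coe]

lemma exponent_bound (s t o e : ℝ) (he0 : 0 ≤ e) (hoe : o = e ∨ o = e + 1) :
    2 * t + (t - (e - 2)) * (s - o) + max (s - o) t ≤
      (s + t) ^ 2 / 4 + (5 - (o + e)) / 2 * (s + t) + ((o + e) ^ 2 + 3 * (o + e) + 1) := by
  have h2 : 0 ≤ e * e := mul_nonneg he0 he0
  rcases max_cases (s - o) t with ⟨hm, -⟩ | ⟨hm, -⟩
  · rw [hm]
    rcases hoe with h | h
    · subst h
      nlinarith [sq_nonneg (s - t - 1)]
    · subst h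
      nlinarith [sq_nonneg (s - t - 2)]
  · rw [hm]
    rcases hoe with h | h
    · subst h
      nlinarith [sq_nonneg (s - t + 1)]
    · subst h
      nlinarith [sq_nonneg (s - t)]

lemma part_balanced (n k L : ℕ) (S : Finset (Fin n)) (hk : 5 ≤ k) (hkL : k ≤ L) (hn : n ≤ 2 ^ L)
    (hnL : 64 * L ^ 2 + 4 * k ≤ n) (h1 : n ≤ 4 * S.card) (h2 : n ≤ 4 * (n - S.card)) :
    (part n k S : ℝ) ≤ 9 * (k * 3 ^ k) * (n : ℝ) ^ (3 * k) *
      2 ^ ((n : ℝ) ^ 2 / 4 + (5 - (k : ℝ)) / 2 * n + (k ^ 2 + 3 * k + 1)) := by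
  classical
  obtain ⟨s, hs⟩ : ∃ s, s = S.card := ⟨_, rfl⟩
  obtain ⟨t, ht⟩ : ∃ t, t = n - S.card := ⟨_, rfl⟩
  obtain ⟨o, ho⟩ : ∃ o, o = (k + 1) / 2 := ⟨_, rfl⟩
  obtain ⟨e, he⟩ : ∃ e, e = k / 2 := ⟨_, rfl⟩
  have hsn : s ≤ n := by
    rw [hs]; simpa using card_le_univ S
  have hL1 : 1 ≤ L := by omega
  have hcs : Fintype.card {x // x ∈ S} = s := by rw [Fintype.card_coe, hs]
  have hct : Fintype.card {x // x ∉ S} = t := by rw [card_compl_sub, ht]
  rw [← hs] at h1
  rw [← ht] at h2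
  rw [← hs] at ht
  have hmain := sum_psi (γ := {x // x ∉ S}) (e := e) t (s - o) L o hct (by omega)
    (by omega) (by omega) hL1 (by omega) (by omega) (by omega) (by omega) (by omega)
  have hstep : (part n k S : ℝ) ≤ (s : ℝ) ^ o * 2 ^ (2 * t) *
      ∑ ψ ∈ univ.filter (fun ψ : {x // x ∉ S} → Fin e => Function.Surjective ψ),
      ((∑ i : Fin o, 2 ^ adj ψ i.val : ℕ) : ℝ) ^ (s - o) := by
    subst ho he
    have : part n k S ≤ ∑ ψ ∈ univ.filter (fun ψ : {x // x ∉ S} → Fin (k / 2) =>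
        Function.Surjective ψ), s ^ ((k + 1) / 2) * (2 ^ (2 * t) *
          (∑ i : Fin ((k + 1) / 2), 2 ^ adj ψ i.val) ^ (s - (k + 1) / 2)) := by
      unfold part
      refine sum_le_sum fun ψ _ => ?_
      have h3 := sum_surj_le (α := {x // x ∈ S}) (β := Fin ((k + 1) / 2))
        (fun b => 2 ^ adj ψ b.val)
      rw [hcs, Fintype.card_fin] at h3
      refine h3.trans ?_
      gcongr
      rw [prod_pow_eq_pow_sum]
      refine Nat.pow_le_pow_right (by norm_num) ?_
      have := sum_adj_le (o := (k + 1) / 2) ψ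
      rw [hct] at this
      exact this
    calc (part n k S : ℝ) ≤ ((∑ ψ ∈ univ.filter (fun ψ : {x // x ∉ S} → Fin (k / 2) =>
        Function.Surjective ψ), s ^ ((k + 1) / 2) * (2 ^ (2 * t) *
          (∑ i : Fin ((k + 1) / 2), 2 ^ adj ψ i.val) ^ (s - (k + 1) / 2)) : ℕ) : ℝ) := by
          exact_mod_cast this
      _ = _ := by
          push_cast
          rw [mul_sum]
          refine sum_congr rfl fun ψ _ => ?_
          ring
  have ht2 : (t : ℝ) ≤ n := by exact_mod_cast (show t ≤ n by omega)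
  have hs2 : (s : ℝ) ≤ n := by exact_mod_cast hsn
  have hn1 : (1 : ℝ) ≤ n := by exact_mod_cast (show 1 ≤ n by omega)
  have hoe : (o : ℝ) + e = k := by exact_mod_cast (show o + e = k by omega)
  have hsum : (part n k S : ℝ) ≤ ((s : ℝ) ^ o * (9 * (t : ℝ) ^ (2 * (e - 2))) *
      ((e + o) * 3 ^ e)) * 2 ^ (2 * t + (t - (e - 2)) * (s - o) + max (s - o) t) := by
    calc (part n k S : ℝ) ≤ (s : ℝ) ^ o * 2 ^ (2 * t) *
          (9 * (t : ℝ) ^ (2 * (e - 2)) * 2 ^ ((t - (e - 2)) * (s - o)) * 2 ^ (max (s - o) t) *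
          ((e + o) * 3 ^ e)) := hstep.trans (by gcongr)
      _ = _ := by rw [pow_add, pow_add]; ring
  refine hsum.trans ?_
  have hpoly : ((s : ℝ) ^ o * (9 * (t : ℝ) ^ (2 * (e - 2))) * ((e + o) * 3 ^ e)) ≤
      9 * (k * 3 ^ k) * (n : ℝ) ^ (3 * k) := by
    have a1 : (s : ℝ) ^ o ≤ (n : ℝ) ^ k := by
      calc (s : ℝ) ^ o ≤ (n : ℝ) ^ o := by gcongr
        _ ≤ (n : ℝ) ^ k := pow_le_pow_right₀ hn1 (by omega)
    have a2 : (t : ℝ) ^ (2 * (e - 2)) ≤ (n : ℝ) ^ (2 * k) := by
      calc (t : ℝ) ^ (2 * (e - 2)) ≤ (n : ℝ) ^ (2 * (e - 2)) := by gcongr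
        _ ≤ (n : ℝ) ^ (2 * k) := pow_le_pow_right₀ hn1 (by omega)
    have a3 : ((e : ℝ) + o) * 3 ^ e ≤ k * 3 ^ k := by
      have : (3 : ℝ) ^ e ≤ 3 ^ k := pow_le_pow_right₀ (by norm_num) (by omega)
      rw [add_comm (e : ℝ), hoe]
      gcongr
    calc ((s : ℝ) ^ o * (9 * (t : ℝ) ^ (2 * (e - 2))) * ((e + o) * 3 ^ e)) ≤
        (n : ℝ) ^ k * (9 * (n : ℝ) ^ (2 * k)) * (k * 3 ^ k) := by gcongr
      _ = _ := by rw [show 3 * k = k + 2 * k by ring, pow_add]; ring
  have hexp : (2 : ℝ) ^ (2 * t + (t - (e - 2)) * (s - o) + max (s - o) t) ≤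
      2 ^ ((n : ℝ) ^ 2 / 4 + (5 - (k : ℝ)) / 2 * n + (k ^ 2 + 3 * k + 1)) := by
    rw [← Real.rpow_natCast 2 (2 * t + (t - (e - 2)) * (s - o) + max (s - o) t)]
    refine Real.rpow_le_rpow_of_exponent_le (by norm_num) ?_
    have hst : (s : ℝ) + t = n := by exact_mod_cast (show s + t = n by omega)
    have c1 : ((t - (e - 2) : ℕ) : ℝ) = t - (e - 2) := by
      rw [Nat.cast_sub (by omega), Nat.cast_sub (by omega)]; norm_num
    have c2 : ((s - o : ℕ) : ℝ) = s - o := by
      rw [Nat.cast_sub (by omega)]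
    have hs0 : (0 : ℝ) ≤ s := by positivity
    have ht0 : (0 : ℝ) ≤ t := by positivity
    have ho0 : (0 : ℝ) ≤ o := by positivity
    have he0 : (0 : ℝ) ≤ e := by positivity
    have hk0 : (0 : ℝ) ≤ k := by positivity
    push_cast [c1, c2]
    have hoe' : (o : ℝ) = e ∨ (o : ℝ) = e + 1 := by
      have : o = e ∨ o = e + 1 := by omega
      rcases this with h | h
      · left; exact_mod_cast h
      · right; exact_mod_cast h
    rw [← hst, ← hoe]
    exact exponent_bound s t o e he0 hoe'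
  gcongr

lemma part_crude (n k : ℕ) (S : Finset (Fin n)) :
    part n k S ≤ k ^ n * 2 ^ (S.card * (n - S.card)) := by
  classical
  have hsn : S.card ≤ n := by simpa using card_le_univ S
  unfold part
  calc _ ≤ ∑ ψ ∈ univ.filter (fun ψ : {x // x ∉ S} → Fin (k / 2) => Function.Surjective ψ),
        ∑ φ ∈ univ.filter (fun φ : {x // x ∈ S} → Fin ((k + 1) / 2) => Function.Surjective φ),
        2 ^ (S.card * (n - S.card)) := by
        refine sum_le_sum fun ψ _ => sum_le_sum fun φ _ => ?_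
        calc ∏ x, 2 ^ adj ψ (φ x).val ≤ ∏ x : {x // x ∈ S}, 2 ^ (n - S.card) := by
              refine prod_le_prod' fun x _ => Nat.pow_le_pow_right (by norm_num) ?_
              have := sum_cnt_le ψ {(φ x).val, (φ x).val + 1}
              rw [sum_pair (by omega), card_compl_sub] at this
              exact this
          _ = _ := by
              rw [prod_const, card_univ, Fintype.card_coe, ← pow_mul, mul_comm]
    _ ≤ (k ^ (n - S.card)) * (k ^ S.card * 2 ^ (S.card * (n - S.card))) := by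
        rw [sum_const, sum_const, smul_eq_mul, smul_eq_mul]
        refine Nat.mul_le_mul ?_ (Nat.mul_le_mul ?_ le_rfl)
        · refine (card_le_univ _).trans ?_
          rw [Fintype.card_fun, Fintype.card_fin, card_compl_sub]
          exact Nat.pow_le_pow_left (Nat.div_le_self _ _) _
        · refine (card_le_univ _).trans ?_
          rw [Fintype.card_fun, Fintype.card_fin, Fintype.card_coe]
          rcases Nat.eq_zero_or_pos k with hk | hk
          · subst hk; simp
          · exact Nat.pow_le_pow_left (by omega) _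
    _ = _ := by
        rw [← mul_assoc, ← pow_add]
        congr 2
        omega

lemma part_le (n k L : ℕ) (S : Finset (Fin n)) (hk : 5 ≤ k) (hkL : k ≤ L) (hn : n ≤ 2 ^ L)
    (hnL : 64 * L ^ 2 + 4 * k ≤ n) :
    (part n k S : ℝ) ≤ 9 * (k * 3 ^ k) * (n : ℝ) ^ (3 * k) *
      2 ^ ((n : ℝ) ^ 2 / 4 + (5 - (k : ℝ)) / 2 * n + (k ^ 2 + 3 * k + 1)) := by
  have hsn : S.card ≤ n := by simpa using card_le_univ S
  by_cases h : n ≤ 4 * S.card ∧ n ≤ 4 * (n - S.card)
  · exact part_balanced n k L S hk hkL hn hnL h.1 h.2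
  have h1 : (part n k S : ℝ) ≤ 2 ^ (k * n + S.card * (n - S.card)) := by
    have h2 := part_crude n k S
    have h3 : k ^ n ≤ 2 ^ (k * n) := by
      rw [pow_mul]; exact Nat.pow_le_pow_left (Nat.lt_two_pow_self).le n
    have h4 : part n k S ≤ 2 ^ (k * n) * 2 ^ (S.card * (n - S.card)) :=
      h2.trans (Nat.mul_le_mul_right _ h3)
    rw [← pow_add] at h4
    exact_mod_cast h4
  refine h1.trans ?_
  have hn1 : (1 : ℝ) ≤ n := by exact_mod_cast (show 1 ≤ n by omega)
  have hk5 : (5 : ℝ) ≤ k := by exact_mod_cast hk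
  have h2 : (1 : ℝ) ≤ 9 * (k * 3 ^ k) * (n : ℝ) ^ (3 * k) := by
    have a1 : (1 : ℝ) ≤ 3 ^ k := one_le_pow₀ (by norm_num)
    have a2 : (1 : ℝ) ≤ (n : ℝ) ^ (3 * k) := one_le_pow₀ hn1
    have a3 : (1 : ℝ) ≤ k * 3 ^ k := by nlinarith
    nlinarith
  have h3 : (2 : ℝ) ^ (k * n + S.card * (n - S.card)) ≤
      2 ^ ((n : ℝ) ^ 2 / 4 + (5 - (k : ℝ)) / 2 * n + (k ^ 2 + 3 * k + 1)) := by
    rw [← Real.rpow_natCast 2 (k * n + S.card * (n - S.card))]
    refine Real.rpow_le_rpow_of_exponent_le (by norm_num) ?_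
    push_cast [Nat.cast_sub hsn]
    set s : ℝ := (S.card : ℝ) with hs
    have hs0 : 0 ≤ s := by positivity
    have hsn' : s ≤ n := by rw [hs]; exact_mod_cast hsn
    have hnk : (64 : ℝ) * k ≤ n := by
      have : 64 * k ≤ n := by nlinarith
      exact_mod_cast this
    have hst : s * (n - s) ≤ 3 / 16 * (n : ℝ) ^ 2 := by
      have hcases : 4 * S.card < n ∨ 4 * (n - S.card) < n := by
        by_contra hcon
        push Not at hcon
        exact h hcon
      rcases hcases with h4 | h4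
      · have h5 : 4 * s < n := by rw [hs]; exact_mod_cast h4
        nlinarith
      · have h5 : 4 * ((n : ℝ) - s) < n := by
          have : ((4 * (n - S.card) : ℕ) : ℝ) < n := by exact_mod_cast h4
          push_cast [Nat.cast_sub hsn] at this
          exact this
        nlinarith
    nlinarith
  calc (2 : ℝ) ^ (k * n + S.card * (n - S.card)) ≤
      1 * 2 ^ ((n : ℝ) ^ 2 / 4 + (5 - (k : ℝ)) / 2 * n + (k ^ 2 + 3 * k + 1)) := by
        rw [one_mul]; exact h3
    _ ≤ _ := by gcongr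

lemma log_bound (k : ℕ) : ∃ n0 : ℕ, ∀ n ≥ n0, ∃ L : ℕ, k ≤ L ∧ n ≤ 2 ^ L ∧
    64 * L ^ 2 + 4 * k ≤ n := by
  have hpow : ∀ j, 20 ≤ j → 64 * (j + 1) ^ 2 + 4 * (j + 1) ≤ 2 ^ j := by
    intro j hj
    induction j, hj using Nat.le_induction with
    | base => norm_num
    | succ j hj ih => rw [pow_succ 2 j]; nlinarith
  refine ⟨2 ^ (max k 20), fun n hn => ?_⟩
  have hn1 : n ≠ 0 := by
    have : 0 < 2 ^ (max k 20) := by positivity
    omega
  have h1 : max k 20 ≤ Nat.log 2 n := Nat.le_log_of_pow_le (by norm_num) hn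
  have h2 := Nat.pow_log_le_self 2 hn1
  have h3 := Nat.lt_pow_succ_log_self (b := 2) (by norm_num) n
  refine ⟨Nat.log 2 n + 1, ?_, h3.le, ?_⟩
  · have := le_max_left k 20; omega
  · have h4 := hpow (Nat.log 2 n) (le_trans (le_max_right k 20) h1)
    have := le_max_left k 20
    omega

theorem upper_bound (k : ℕ) (hk : 5 ≤ k) : ∃ K : ℝ, 0 < K ∧ ∃ n0 : ℕ, ∀ n ≥ n0,
    (a k n : ℝ) ≤ K * (n : ℝ) ^ (3 * k) *
      2 ^ ((n : ℝ) ^ 2 / 4 + (1 - ((k : ℝ) - 5) / 2) * n) := by
  classical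
  obtain ⟨n0, hn0⟩ := log_bound k
  refine ⟨9 * (k * 3 ^ k) * 2 ^ ((k : ℝ) ^ 2 + 3 * k + 1), ?_, n0, fun n hn => ?_⟩
  · have : (0 : ℝ) < k := by exact_mod_cast (show 0 < k by omega)
    positivity
  obtain ⟨L, hL1, hL2, hL3⟩ := hn0 n hn
  have h1 : a k n ≤ ∑ S : Finset (Fin n), part n k S :=
    (a_le k n).trans (sum_pairs_le (by omega))
  calc (a k n : ℝ) ≤ ((∑ S : Finset (Fin n), part n k S : ℕ) : ℝ) := by exact_mod_cast h1
    _ = ∑ S : Finset (Fin n), (part n k S : ℝ) := by push_cast; rfl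
    _ ≤ ∑ S : Finset (Fin n), 9 * (k * 3 ^ k) * (n : ℝ) ^ (3 * k) *
      2 ^ ((n : ℝ) ^ 2 / 4 + (5 - (k : ℝ)) / 2 * n + (k ^ 2 + 3 * k + 1)) :=
        sum_le_sum fun S _ => part_le n k L S hk hL1 hL2 hL3
    _ = 2 ^ (n : ℝ) * (9 * (k * 3 ^ k) * (n : ℝ) ^ (3 * k) *
      2 ^ ((n : ℝ) ^ 2 / 4 + (5 - (k : ℝ)) / 2 * n + (k ^ 2 + 3 * k + 1))) := by
        rw [sum_const, card_univ, Fintype.card_finset, Fintype.card_fin, nsmul_eq_mul]
        push_cast
        rw [Real.rpow_natCast]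
    _ = 9 * (k * 3 ^ k) * 2 ^ ((k : ℝ) ^ 2 + 3 * k + 1) * (n : ℝ) ^ (3 * k) *
      2 ^ ((n : ℝ) ^ 2 / 4 + (1 - ((k : ℝ) - 5) / 2) * n) := by
        have e1 : (n : ℝ) ^ 2 / 4 + (5 - (k : ℝ)) / 2 * n + (k ^ 2 + 3 * k + 1) =
          ((n : ℝ) ^ 2 / 4 + (1 - ((k : ℝ) - 5) / 2) * n) + (k ^ 2 + 3 * k + 1) + -n := by ring
        rw [e1, Real.rpow_add (by norm_num), Real.rpow_add (by norm_num), Real.rpow_neg (by norm_num)]
        have : (2 : ℝ) ^ (n : ℝ) ≠ 0 := by positivity
        field_simp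

end upper2

/-! ### The lower bound -/

section lower

open Relation

variable {n : ℕ}

section ord

variable {R : Fin n → Fin n → Prop} {l : Fin n → ℕ}

lemma rtg_cases (hR : ∀ x y, R x y → l y = l x + 1) {x y : Fin n} (h : ReflTransGen R x y) :
    x = y ∨ l x < l y := by
  induction h with
  | refl => exact Or.inl rfl
  | tail _ hc ih =>
    have := hR _ _ hc
    rcases ih with rfl | ih <;> right <;> omega

lemma covers_rtg (hR : ∀ x y, R x y → l y = l x + 1) (x y : Fin n) :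
    Covers (ReflTransGen R) x y ↔ R x y := by
  constructor
  · rintro ⟨⟨h1, h2⟩, h3⟩
    rcases ReflTransGen.cases_tail h1 with h4 | ⟨c, h4, h5⟩
    · exact absurd h4.symm h2
    · by_cases h6 : x = c
      · rw [h6]; exact h5
      · exfalso
        apply h3
        refine ⟨c, ⟨h4, h6⟩, ReflTransGen.single h5, ?_⟩
        rintro rfl
        have := hR _ _ h5
        omega
  · intro h
    have := hR _ _ h
    refine ⟨⟨ReflTransGen.single h, by rintro rfl; omega⟩, ?_⟩
    rintro ⟨z, ⟨h1, h2⟩, h3, h4⟩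
    have a1 := (rtg_cases hR h1).resolve_left h2
    have a2 := (rtg_cases hR h3).resolve_left h4
    omega

lemma isOrder_rtg (hR : ∀ x y, R x y → l y = l x + 1) : IsOrder (ReflTransGen R) := by
  refine ⟨fun _ => ReflTransGen.refl, fun x y h1 h2 => ?_, fun _ _ _ h1 h2 => h1.trans h2⟩
  rcases rtg_cases hR h1 with h | h
  · exact h
  · rcases rtg_cases hR h2 with h' | h'
    · exact h'.symm
    · omega

lemma isGrade_rtg (hR : ∀ x y, R x y → l y = l x + 1) (hl : ∀ x, 1 ≤ l x) (b : Fin n)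
    (hb : l b = 1) (hc : ∀ x, EqvGen R x b) : IsGrade (ReflTransGen R) l where
  pos := hl
  mono := fun x y h => by
    rcases rtg_cases hR h with h | h
    · rw [h]
    · exact h.le
  step := fun x y h => hR _ _ ((covers_rtg hR x y).1 h)
  norm := fun x => ⟨b, Relation.EqvGen.mono (r := R) (p := ReflTransGen R) (fun _ _ h => ReflTransGen.single h) _ _ (hc x), hb⟩

lemma level_unique {l' : Fin n → ℕ} (hR : ∀ x y, R x y → l y = l x + 1)
    (hR' : ∀ x y, R x y → l' y = l' x + 1) {x y : Fin n} (h : EqvGen R x y) :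
    (l x : ℤ) - l' x = l y - l' y := by
  induction h with
  | rel x y h => have := hR _ _ h; have := hR' _ _ h; omega
  | refl x => rfl
  | symm x y _ ih => exact ih.symm
  | trans x y z _ _ ih1 ih2 => exact ih1.trans ih2

end ord

/-- The level of an element, given the middle level `M` and the data `f`. -/
def lev (k : ℕ) (M : Finset (Fin n)) (f : Fin n → Bool × Bool × Finset (Fin n)) (x : Fin n) : ℕ :=
  if x.val = 0 then 1 else if x.val < k - 3 then x.val + 4 else if x ∈ M then 3 else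
    if (f x).1 = true then 2 else 4

/-- The cover relation given by the data. -/
def rel (k : ℕ) (M : Finset (Fin n)) (f : Fin n → Bool × Bool × Finset (Fin n))
    (y x : Fin n) : Prop :=
  (lev k M f y = 1 ∧ lev k M f x = 2 ∧ (f x).2.1 = true) ∨
  (lev k M f y = 2 ∧ lev k M f x = 3 ∧ x ∈ (f y).2.2) ∨
  (lev k M f y = 3 ∧ lev k M f x = 4 ∧ y ∈ (f x).2.2) ∨
  (lev k M f y = 4 ∧ lev k M f x = 5 ∧ (f y).2.1 = true) ∨
  (5 ≤ lev k M f y ∧ lev k M f x = lev k M f y + 1)

/-- The ordinary elements. -/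
def ordi (n k : ℕ) : Finset (Fin n) := univ.filter (fun x => k - 3 ≤ x.val)

/-- All data with a given middle level. -/
def Om (k : ℕ) (M : Finset (Fin n)) : Finset (Fin n → Bool × Bool × Finset (Fin n)) :=
  Fintype.piFinset (fun v => if v ∈ ordi n k \ M then
    (univ : Finset Bool) ×ˢ ((univ : Finset Bool) ×ˢ M.powerset) else {(false, false, ∅)})

/-- Good data. -/
structure Good (k : ℕ) (M : Finset (Fin n)) (f : Fin n → Bool × Bool × Finset (Fin n)) : Prop where
  c1 : ∀ x ∈ M, ∃ v ∈ ordi n k \ M, (f v).1 = true ∧ (f v).2.1 = true ∧ x ∈ (f v).2.2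
  c2 : ∀ v ∈ ordi n k \ M, (f v).2.2 ≠ ∅
  c3 : ∃ v ∈ ordi n k \ M, (f v).1 = false ∧ (f v).2.1 = true

variable {k : ℕ} {M : Finset (Fin n)} {f : Fin n → Bool × Bool × Finset (Fin n)}

lemma mem_ordi {x : Fin n} : x ∈ ordi n k ↔ k - 3 ≤ x.val := by simp [ordi]

lemma rel_lev (y x : Fin n) (h : rel k M f y x) : lev k M f x = lev k M f y + 1 := by
  rcases h with h | h | h | h | h <;> omega

lemma lev_pos (x : Fin n) : 1 ≤ lev k M f x := by
  unfold lev; split_ifs <;> omega

lemma lev_mem (hk : 5 ≤ k) (hM : M ⊆ ordi n k) {x : Fin n} : lev k M f x = 3 ↔ x ∈ M := by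
  constructor
  · intro h
    unfold lev at h
    by_contra h3
    rw [if_neg h3] at h
    split_ifs at h <;> omega
  · intro h
    have := mem_ordi.1 (hM h)
    unfold lev
    rw [if_neg (by omega), if_neg (by omega), if_pos h]

lemma lev_two (hk : 5 ≤ k) {x : Fin n} :
    lev k M f x = 2 ↔ x ∈ ordi n k \ M ∧ (f x).1 = true := by
  rw [mem_sdiff, mem_ordi]
  unfold lev
  split_ifs with h1 h2 h3 h4
  · simp; omega
  · simp; omega
  · simp [h3]
  · simp [h3, h4]; omega
  · simp [h4]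

lemma lev_four (hk : 5 ≤ k) {x : Fin n} :
    lev k M f x = 4 ↔ x ∈ ordi n k \ M ∧ (f x).1 = false := by
  rw [mem_sdiff, mem_ordi]
  unfold lev
  split_ifs with h1 h2 h3 h4
  · simp; omega
  · simp; omega
  · simp [h3]
  · simp [h4]
  · simp only [true_iff]
    exact ⟨⟨by omega, h3⟩, by simpa using h4⟩

lemma lev_cases (x : Fin n) : x.val = 0 ∨ (1 ≤ x.val ∧ x.val < k - 3 ∧ lev k M f x = x.val + 4) ∨
    x ∈ M ∨ x ∈ ordi n k \ M := by
  rw [mem_sdiff, mem_ordi]
  by_cases h1 : x.val = 0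
  · exact Or.inl h1
  by_cases h2 : x.val < k - 3
  · right; left
    refine ⟨by omega, h2, ?_⟩
    unfold lev; rw [if_neg h1, if_pos h2]
  by_cases h3 : x ∈ M
  · exact Or.inr (Or.inr (Or.inl h3))
  · exact Or.inr (Or.inr (Or.inr ⟨by omega, h3⟩))

lemma mem_Om {f : Fin n → Bool × Bool × Finset (Fin n)} (hf : f ∈ Om k M) :
    (∀ v ∈ ordi n k \ M, (f v).2.2 ⊆ M) ∧ (∀ v, v ∉ ordi n k \ M → f v = (false, false, ∅)) := by
  unfold Om at hf
  rw [Fintype.mem_piFinset] at hf
  refine ⟨fun v hv => ?_, fun v hv => ?_⟩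
  · have := hf v
    rw [if_pos hv, mem_product, mem_product, mem_powerset] at this
    exact this.2.2
  · have := hf v
    rw [if_neg hv, mem_singleton] at this
    exact this

lemma connected (hk : 5 ≤ k) (hkn : k ≤ n) (hM : M ⊆ ordi n k) (hf : f ∈ Om k M)
    (hg : Good k M f) (x : Fin n) : EqvGen (rel k M f) x ⟨0, by omega⟩ := by
  have hz : lev k M f ⟨0, by omega⟩ = 1 := by unfold lev; simp
  have s1 : ∀ v, lev k M f v = 2 → (f v).2.1 = true → EqvGen (rel k M f) v ⟨0, by omega⟩ := by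
    intro v h1 h2
    exact EqvGen.symm _ _ (EqvGen.rel _ _ (Or.inl ⟨hz, h1, h2⟩))
  have s2 : ∀ x ∈ M, EqvGen (rel k M f) x ⟨0, by omega⟩ := by
    intro x hx
    obtain ⟨v, hv, h1, h2, h3⟩ := hg.c1 x hx
    have hv2 : lev k M f v = 2 := (lev_two hk).2 ⟨hv, h1⟩
    have hx3 : lev k M f x = 3 := (lev_mem hk hM).2 hx
    refine EqvGen.trans _ v _ (EqvGen.symm _ _ (EqvGen.rel _ _ ?_)) (s1 v hv2 h2)
    exact Or.inr (Or.inl ⟨hv2, hx3, h3⟩)
  have s3 : ∀ v ∈ ordi n k \ M, EqvGen (rel k M f) v ⟨0, by omega⟩ := by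
    intro v hv
    obtain ⟨x, hx⟩ := Finset.nonempty_iff_ne_empty.2 (hg.c2 v hv)
    have hxM : x ∈ M := (mem_Om hf).1 v hv hx
    have hx3 : lev k M f x = 3 := (lev_mem hk hM).2 hxM
    cases hb : (f v).1 with
    | true =>
      have hv2 : lev k M f v = 2 := (lev_two hk).2 ⟨hv, hb⟩
      exact EqvGen.trans _ x _ (EqvGen.rel _ _ (Or.inr (Or.inl ⟨hv2, hx3, hx⟩))) (s2 x hxM)
    | false =>
      have hv4 : lev k M f v = 4 := (lev_four hk).2 ⟨hv, hb⟩
      exact EqvGen.trans _ x _ (EqvGen.symm _ _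
        (EqvGen.rel _ _ (Or.inr (Or.inr (Or.inl ⟨hx3, hv4, hx⟩))))) (s2 x hxM)
  have s4 : ∀ j : ℕ, ∀ x : Fin n, x.val = j + 1 → x.val < k - 3 →
      EqvGen (rel k M f) x ⟨0, by omega⟩ := by
    intro j
    induction j with
    | zero =>
      intro x hx1 hx2
      obtain ⟨v, hv, h1, h2⟩ := hg.c3
      have hv4 : lev k M f v = 4 := (lev_four hk).2 ⟨hv, h1⟩
      have hx5 : lev k M f x = 5 := by
        unfold lev; rw [if_neg (by omega), if_pos hx2]; omega
      refine EqvGen.trans _ v _ (EqvGen.symm _ _ (EqvGen.rel _ _ ?_)) (s3 v hv)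
      exact Or.inr (Or.inr (Or.inr (Or.inl ⟨hv4, hx5, h2⟩)))
    | succ j ih =>
      intro x hx1 hx2
      have hw := ih ⟨j + 1, by omega⟩ rfl (by simp only; omega)
      refine EqvGen.trans _ _ _ (EqvGen.symm _ _ (EqvGen.rel _ _ ?_)) hw
      refine Or.inr (Or.inr (Or.inr (Or.inr ?_)))
      have h1 : lev k M f x = x.val + 4 := by
        unfold lev; rw [if_neg (by omega), if_pos hx2]
      have h2 : lev k M f ⟨j + 1, by omega⟩ = j + 1 + 4 := by
        unfold lev; rw [if_neg (by simp), if_pos (by simp only; omega)]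
      rw [h1, h2]
      omega
  rcases lev_cases (k := k) (M := M) (f := f) x with h | h | h | h
  · have : x = ⟨0, by omega⟩ := Fin.ext h
    rw [this]
    exact EqvGen.refl _
  · exact s4 (x.val - 1) x (by omega) h.2.1
  · exact s2 x h
  · exact s3 x h

lemma range_lev (hk : 5 ≤ k) (hkn : k ≤ n) (hM : M ⊆ ordi n k) (hM0 : M.Nonempty)
    (hg : Good k M f) : (Set.range (lev k M f)).ncard = k := by
  have : Set.range (lev k M f) = ((Finset.Icc 1 k : Finset ℕ) : Set ℕ) := by
    ext j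
    simp only [Set.mem_range, Finset.coe_Icc, Set.mem_Icc]
    constructor
    · rintro ⟨x, rfl⟩
      refine ⟨lev_pos x, ?_⟩
      unfold lev
      split_ifs <;> omega
    · rintro ⟨h1, h2⟩
      by_cases hj1 : j = 1
      · exact ⟨⟨0, by omega⟩, by subst hj1; unfold lev; simp⟩
      by_cases hj2 : j = 2
      · obtain ⟨x, hx⟩ := hM0
        obtain ⟨v, hv, hv1, -⟩ := hg.c1 x hx
        exact ⟨v, by rw [hj2]; exact (lev_two hk).2 ⟨hv, hv1⟩⟩
      by_cases hj3 : j = 3
      · obtain ⟨x, hx⟩ := hM0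
        exact ⟨x, by rw [hj3]; exact (lev_mem hk hM).2 hx⟩
      by_cases hj4 : j = 4
      · obtain ⟨v, hv, hv1, -⟩ := hg.c3
        exact ⟨v, by rw [hj4]; exact (lev_four hk).2 ⟨hv, hv1⟩⟩
      · refine ⟨⟨j - 4, by omega⟩, ?_⟩
        unfold lev
        rw [if_neg (by simp only; omega), if_pos (by simp only; omega)]
        simp only
        omega
  rw [this, Set.ncard_coe_finset]
  simp

lemma graded_rel (hk : 5 ≤ k) (hkn : k ≤ n) (hM : M ⊆ ordi n k) (hM0 : M.Nonempty)
    (hf : f ∈ Om k M) (hg : Good k M f) : GradedWithLevels k (ReflTransGen (rel k M f)) :=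
  ⟨isOrder_rtg rel_lev, lev k M f, isGrade_rtg rel_lev lev_pos ⟨0, by omega⟩
    (by unfold lev; simp) (connected hk hkn hM hf hg), range_lev hk hkn hM hM0 hg⟩

lemma rel_injective (hk : 5 ≤ k) (hkn : k ≤ n) {M' : Finset (Fin n)}
    {f' : Fin n → Bool × Bool × Finset (Fin n)} (hM : M ⊆ ordi n k) (hM' : M' ⊆ ordi n k)
    (hf : f ∈ Om k M) (hf' : f' ∈ Om k M') (hg : Good k M f) 
    (h : ReflTransGen (rel k M f) = ReflTransGen (rel k M' f')) : M = M' ∧ f = f' := by
  have hrel : ∀ x y, rel k M f x y ↔ rel k M' f' x y := by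
    intro x y
    rw [← covers_rtg rel_lev, h, covers_rtg rel_lev]
  have hlev : ∀ x, lev k M f x = lev k M' f' x := by
    intro x
    have h1 := level_unique (R := rel k M f) (l := lev k M f) (l' := lev k M' f') rel_lev
      (fun x y hxy => rel_lev x y ((hrel x y).1 hxy)) (connected hk hkn hM hf hg x)
    have h2 : lev k M f ⟨0, by omega⟩ = 1 := by unfold lev; simp
    have h3 : lev k M' f' ⟨0, by omega⟩ = 1 := by unfold lev; simp
    rw [h2, h3] at h1
    omega
  have hMM : M = M' := by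
    ext x
    rw [← lev_mem hk hM (f := f), hlev, lev_mem hk hM' (f := f')]
  subst hMM
  refine ⟨rfl, ?_⟩
  have hz : lev k M f ⟨0, by omega⟩ = 1 := by unfold lev; simp
  have hz' : lev k M f' ⟨0, by omega⟩ = 1 := by unfold lev; simp
  have hz5 : lev k M f ⟨1, by omega⟩ = 5 := by
    unfold lev; rw [if_neg (by simp), if_pos (by simp only; omega)]
  have hz5' : lev k M f' ⟨1, by omega⟩ = 5 := by
    unfold lev; rw [if_neg (by simp), if_pos (by simp only; omega)]
  funext v
  by_cases hv : v ∈ ordi n k \ M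
  · have hsub := (mem_Om hf).1 v hv
    have hsub' := (mem_Om hf').1 v hv
    cases hb : (f v).1 with
    | true =>
      have hv2 : lev k M f v = 2 := (lev_two hk).2 ⟨hv, hb⟩
      have hv2' : lev k M f' v = 2 := by rw [← hlev]; exact hv2
      have hb' : (f' v).1 = true := ((lev_two hk).1 hv2').2
      have e1 : (f v).2.1 = (f' v).2.1 := by
        have h1 := hrel ⟨0, by omega⟩ v
        unfold rel at h1
        simp only [hz, hz', hv2, hv2'] at h1
        simp at h1
        exact h1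
      have e2 : (f v).2.2 = (f' v).2.2 := by
        ext x
        by_cases hx : x ∈ M
        · have hx3 : lev k M f x = 3 := (lev_mem hk hM).2 hx
          have hx3' : lev k M f' x = 3 := (lev_mem hk hM).2 hx
          have h1 := hrel v x
          unfold rel at h1
          simp only [hx3, hx3', hv2, hv2'] at h1
          simpa using h1
        · exact ⟨fun h => absurd (hsub h) hx, fun h => absurd (hsub' h) hx⟩
      exact Prod.ext (by rw [hb, hb']) (Prod.ext e1 e2)
    | false =>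
      have hv4 : lev k M f v = 4 := (lev_four hk).2 ⟨hv, hb⟩
      have hv4' : lev k M f' v = 4 := by rw [← hlev]; exact hv4
      have hb' : (f' v).1 = false := ((lev_four hk).1 hv4').2
      have e1 : (f v).2.1 = (f' v).2.1 := by
        have h1 := hrel v ⟨1, by omega⟩
        unfold rel at h1
        simp only [hz5, hz5', hv4, hv4'] at h1
        simp at h1
        exact h1
      have e2 : (f v).2.2 = (f' v).2.2 := by
        ext x
        by_cases hx : x ∈ M
        · have hx3 : lev k M f x = 3 := (lev_mem hk hM).2 hx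
          have hx3' : lev k M f' x = 3 := (lev_mem hk hM).2 hx
          have h1 := hrel x v
          unfold rel at h1
          simp only [hx3, hx3', hv4, hv4'] at h1
          simpa using h1
        · exact ⟨fun h => absurd (hsub h) hx, fun h => absurd (hsub' h) hx⟩
      exact Prod.ext (by rw [hb, hb']) (Prod.ext e1 e2)
  · rw [(mem_Om hf).2 v hv, (mem_Om hf').2 v hv]

end lower

section count

variable {n k : ℕ} {M : Finset (Fin n)}

/-- The possible values of the data at one ordinary element. -/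
def Bv (M : Finset (Fin n)) : Finset (Bool × Bool × Finset (Fin n)) :=
  (univ : Finset Bool) ×ˢ ((univ : Finset Bool) ×ˢ M.powerset)

lemma card_Bv : (Bv M).card = 4 * 2 ^ M.card := by
  unfold Bv
  rw [card_product, card_product, card_powerset, card_univ, Fintype.card_bool]
  ring

lemma card_filter_Om (P : Fin n → Bool × Bool × Finset (Fin n) → Prop) 
    [∀ v, DecidablePred (P v)] :
    ((Om k M).filter (fun f => ∀ v ∈ ordi n k \ M, P v (f v))).card =
      ∏ v ∈ ordi n k \ M, ((Bv M).filter (P v)).card := by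
  have : (Om k M).filter (fun f => ∀ v ∈ ordi n k \ M, P v (f v)) =
      Fintype.piFinset (fun v => if v ∈ ordi n k \ M then (Bv M).filter (P v)
        else {(false, false, ∅)}) := by
    ext f
    unfold Om
    rw [mem_filter, Fintype.mem_piFinset, Fintype.mem_piFinset]
    constructor
    · rintro ⟨h1, h2⟩ v
      have h3 := h1 v
      by_cases hv : v ∈ ordi n k \ M
      · rw [if_pos hv] at h3 ⊢
        exact mem_filter.2 ⟨h3, h2 v hv⟩
      · rw [if_neg hv] at h3 ⊢
        exact h3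
    · intro h
      refine ⟨fun v => ?_, fun v hv => ?_⟩
      · have h3 := h v
        by_cases hv : v ∈ ordi n k \ M
        · rw [if_pos hv] at h3 ⊢
          exact (mem_filter.1 h3).1
        · rw [if_neg hv] at h3 ⊢
          exact h3
      · have h3 := h v
        rw [if_pos hv] at h3
        exact (mem_filter.1 h3).2
  rw [this, Fintype.card_piFinset]
  rw [← Finset.prod_filter_mul_prod_filter_not univ (fun v => v ∈ ordi n k \ M)]
  have e1 : ∏ x ∈ univ.filter (fun x => ¬ x ∈ ordi n k \ M),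
      (if x ∈ ordi n k \ M then (Bv M).filter (P x) else {(false, false, ∅)}).card = 1 := by
    refine prod_eq_one fun x hx => ?_
    rw [mem_filter] at hx
    rw [if_neg hx.2, card_singleton]
  rw [e1, mul_one]
  have e2 : univ.filter (fun v => v ∈ ordi n k \ M) = ordi n k \ M := by ext; simp
  rw [e2]
  refine prod_congr rfl fun x hx => ?_
  rw [if_pos hx]

lemma card_Om : (Om k M).card = (4 * 2 ^ M.card) ^ (ordi n k \ M).card := by
  have h := card_filter_Om (n := n) (k := k) (M := M) (fun _ _ => True)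
  simp only [implies_true, filter_true] at h
  rw [h, card_Bv, prod_const]

lemma card_b1 {x : Fin n} (hx : x ∈ M) :
    (((Bv M).filter (fun b => ¬ (b.1 = true ∧ b.2.1 = true ∧ x ∈ b.2.2))).card : ℝ) =
      7 / 8 * (4 * 2 ^ M.card) := by
  have h1 := Finset.card_filter_add_card_filter_not (s := Bv M)
    (fun b => b.1 = true ∧ b.2.1 = true ∧ x ∈ b.2.2)
  have h2 : ((Bv M).filter (fun b => b.1 = true ∧ b.2.1 = true ∧ x ∈ b.2.2)).card =
      2 ^ (M.card - 1) := by
    rw [← card_erase_of_mem hx, ← card_powerset]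
    symm
    refine card_bij (fun s _ => (true, true, insert x s)) ?_ ?_ ?_
    · intro s hs
      rw [mem_powerset] at hs
      simp only [Bv, mem_filter, mem_product, mem_univ, true_and, mem_powerset,
        mem_insert_self, and_true]
      exact insert_subset hx (hs.trans (erase_subset _ _))
    · intro s hs s' hs' h
      rw [mem_powerset] at hs hs'
      simp only [Prod.mk.injEq, true_and] at h
      have h1 : x ∉ s := fun h => by simpa using hs h
      have h2 : x ∉ s' := fun h => by simpa using hs' h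
      rw [← erase_insert h1, h, erase_insert h2]
    · rintro ⟨b1, b2, s⟩ hb
      simp only [Bv, mem_filter, mem_product, mem_univ, true_and, mem_powerset] at hb
      obtain ⟨hs, rfl, rfl, hxs⟩ := hb
      refine ⟨s.erase x, ?_, ?_⟩
      · rw [mem_powerset]; exact erase_subset_erase _ hs
      · rw [insert_erase hxs]
  rw [h2, card_Bv] at h1
  have h3 : 0 < M.card := card_pos.2 ⟨x, hx⟩
  have h4 : 2 ^ M.card = 2 * 2 ^ (M.card - 1) := by
    rw [← pow_succ']; congr 1; omega
  rw [h4] at h1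
  have h1' : ((2 : ℝ) ^ (M.card - 1) + (((Bv M).filter
      (fun b => ¬ (b.1 = true ∧ b.2.1 = true ∧ x ∈ b.2.2))).card : ℝ)) =
      4 * (2 * 2 ^ (M.card - 1)) := by exact_mod_cast h1
  have h4' : (2 : ℝ) ^ M.card = 2 * 2 ^ (M.card - 1) := by exact_mod_cast h4
  rw [h4']
  linarith

lemma card_b2 : ((Bv M).filter (fun b => b.2.2 = ∅)).card = 4 := by
  have : (Bv M).filter (fun b => b.2.2 = ∅) =
      (univ : Finset Bool) ×ˢ ((univ : Finset Bool) ×ˢ ({∅} : Finset (Finset (Fin n)))) := by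
    ext ⟨b1, b2, s⟩
    simp only [Bv, mem_filter, mem_product, mem_univ, true_and, mem_powerset, mem_singleton]
    constructor
    · rintro ⟨_, h⟩; exact h
    · rintro rfl; exact ⟨empty_subset _, rfl⟩
  rw [this, card_product, card_product, card_singleton, card_univ, Fintype.card_bool]

lemma card_b3 : (((Bv M).filter (fun b => ¬ (b.1 = false ∧ b.2.1 = true))).card : ℝ) =
    3 / 4 * (4 * 2 ^ M.card) := by
  have h1 := Finset.card_filter_add_card_filter_not (s := Bv M)
    (fun b => b.1 = false ∧ b.2.1 = true)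
  have h2 : ((Bv M).filter (fun b => b.1 = false ∧ b.2.1 = true)).card = 2 ^ M.card := by
    have : (Bv M).filter (fun b => b.1 = false ∧ b.2.1 = true) =
      ({false} : Finset Bool) ×ˢ (({true} : Finset Bool) ×ˢ M.powerset) := by
      ext ⟨b1, b2, s⟩
      simp only [Bv, mem_filter, mem_product, mem_univ, true_and, mem_powerset, mem_singleton]
      tauto
    rw [this, card_product, card_product, card_singleton, card_singleton, card_powerset]
    ring
  rw [h2, card_Bv] at h1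
  have h1' : ((2 : ℝ) ^ M.card + (((Bv M).filter
      (fun b => ¬ (b.1 = false ∧ b.2.1 = true))).card : ℝ)) = 4 * 2 ^ M.card := by
    exact_mod_cast h1
  linarith

open Classical in
lemma card_good (m y : ℕ) (hm : M.card = m) (hy : (ordi n k \ M).card = y)
    (hbound : (m : ℝ) * (7 / 8) ^ y + y * (1 / 2) ^ m + (3 / 4) ^ y ≤ 1 / 2) :
    (1 / 2 : ℝ) * (4 * 2 ^ m) ^ y ≤ ((Om k M).filter (fun f => Good k M f)).card := by
  set Y := ordi n k \ M with hYdef
  have hB : ((Bv M).card : ℝ) = 4 * 2 ^ m := by rw [card_Bv, hm]; push_cast; ring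
  have hOm : ((Om k M).card : ℝ) = (4 * 2 ^ m) ^ y := by
    rw [card_Om, hm, ← hYdef, hy]; push_cast; ring
  have hsplit := Finset.card_filter_add_card_filter_not (s := Om k M) (fun f => Good k M f)
  have hbad : (Om k M).filter (fun f => ¬ Good k M f) ⊆
      ((M.biUnion (fun x => (Om k M).filter (fun f => ∀ v ∈ Y,
        ¬ ((f v).1 = true ∧ (f v).2.1 = true ∧ x ∈ (f v).2.2)))) ∪
      (Y.biUnion (fun u => (Om k M).filter (fun f => ∀ v ∈ Y, (v = u → (f v).2.2 = ∅))))) ∪
      ((Om k M).filter (fun f => ∀ v ∈ Y, ¬ ((f v).1 = false ∧ (f v).2.1 = true))) := by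
    intro f hf
    rw [mem_filter] at hf
    obtain ⟨hf1, hf2⟩ := hf
    by_contra hcon
    simp only [mem_union, mem_biUnion, mem_filter, not_or, not_exists, not_and, not_forall] at hcon
    obtain ⟨⟨h1, h2⟩, h3⟩ := hcon
    apply hf2
    refine ⟨fun x hx => ?_, fun v hv => ?_, ?_⟩
    · obtain ⟨v, hv, hv2⟩ := h1 x hx hf1
      obtain ⟨a1, a2, a3⟩ := hv2
      exact ⟨v, hv, a1, a2, not_not.1 a3⟩
    · obtain ⟨w, hw, hwv, hw2⟩ := h2 v hv hf1
      rw [← hwv]; exact hw2
    · obtain ⟨v, hv, hv2⟩ := h3 hf1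
      obtain ⟨a1, a2⟩ := hv2
      exact ⟨v, hv, a1, not_not.1 a2⟩
  have hcard := card_le_card hbad
  have c1 : ∀ x ∈ M, (((Om k M).filter (fun f => ∀ v ∈ Y,
        ¬ ((f v).1 = true ∧ (f v).2.1 = true ∧ x ∈ (f v).2.2))).card : ℝ) =
        (7 / 8) ^ y * (4 * 2 ^ m) ^ y := by
    intro x hx
    rw [card_filter_Om (fun _ b => ¬ (b.1 = true ∧ b.2.1 = true ∧ x ∈ b.2.2)), prod_const,
      ← hYdef, hy]
    push_cast
    rw [card_b1 hx, hm, mul_pow]
  have c2 : ∀ u ∈ Y, (((Om k M).filter (fun f => ∀ v ∈ Y, (v = u → (f v).2.2 = ∅))).card : ℝ) =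
        (1 / 2) ^ m * (4 * 2 ^ m) ^ y := by
    intro u hu
    rw [card_filter_Om (fun v b => (v = u → b.2.2 = ∅)), ← hYdef, ← mul_prod_erase Y _ hu]
    have e1 : ((Bv M).filter (fun b => (u = u → b.2.2 = ∅))).card = 4 := by
      simp only [forall_const]
      exact card_b2
    have e2 : ∏ x ∈ Y.erase u, ((Bv M).filter (fun b => (x = u → b.2.2 = ∅))).card =
        (4 * 2 ^ m) ^ (y - 1) := by
      have : ∀ x ∈ Y.erase u, ((Bv M).filter (fun b => (x = u → b.2.2 = ∅))).card =
          4 * 2 ^ m := by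
        intro x hx
        have hxu : x ≠ u := (mem_erase.1 hx).1
        simp only [hxu, false_implies, filter_true]
        rw [card_Bv, hm]
      rw [prod_congr rfl this, prod_const, card_erase_of_mem hu, hy]
    rw [e1, e2]
    have hy1 : 1 ≤ y := by rw [← hy]; exact card_pos.2 ⟨u, hu⟩
    obtain ⟨y', rfl⟩ := Nat.exists_eq_add_of_le hy1
    have e3 : (1 / 2 : ℝ) ^ m * 2 ^ m = 1 := by rw [← mul_pow]; norm_num
    push_cast
    rw [show 1 + y' - 1 = y' by omega, pow_add, pow_one]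
    linear_combination (-4 * (4 * 2 ^ m) ^ y') * e3
  have c3 : (((Om k M).filter (fun f => ∀ v ∈ Y, ¬ ((f v).1 = false ∧ (f v).2.1 = true))).card
      : ℝ) = (3 / 4) ^ y * (4 * 2 ^ m) ^ y := by
    rw [card_filter_Om (fun _ b => ¬ (b.1 = false ∧ b.2.1 = true)), prod_const, ← hYdef, hy]
    push_cast
    rw [card_b3, hm, mul_pow]
  have hbadcard : (((Om k M).filter (fun f => ¬ Good k M f)).card : ℝ) ≤
      1 / 2 * (4 * 2 ^ m) ^ y := by
    calc (((Om k M).filter (fun f => ¬ Good k M f)).card : ℝ) ≤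
        (∑ x ∈ M, (((Om k M).filter (fun f => ∀ v ∈ Y,
        ¬ ((f v).1 = true ∧ (f v).2.1 = true ∧ x ∈ (f v).2.2))).card : ℝ) +
        ∑ u ∈ Y, (((Om k M).filter (fun f => ∀ v ∈ Y, (v = u → (f v).2.2 = ∅))).card : ℝ)) +
        (((Om k M).filter (fun f => ∀ v ∈ Y, ¬ ((f v).1 = false ∧ (f v).2.1 = true))).card
          : ℝ) := by
          have h1 := hcard.trans (card_union_le _ _)
          have h2 := h1.trans (Nat.add_le_add_right (card_union_le _ _) _)
          have h3 := h2.trans (Nat.add_le_add_right (Nat.add_le_add card_biUnion_le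
            card_biUnion_le) _)
          exact_mod_cast h3
      _ = (m * ((7 / 8) ^ y * (4 * 2 ^ m) ^ y) + y * ((1 / 2) ^ m * (4 * 2 ^ m) ^ y)) +
          (3 / 4) ^ y * (4 * 2 ^ m) ^ y := by
          rw [sum_congr rfl c1, sum_congr rfl c2, c3, sum_const, sum_const, hm, hy,
            nsmul_eq_mul, nsmul_eq_mul]
      _ = ((m : ℝ) * (7 / 8) ^ y + y * (1 / 2) ^ m + (3 / 4) ^ y) * (4 * 2 ^ m) ^ y := by ring
      _ ≤ 1 / 2 * (4 * 2 ^ m) ^ y := by gcongr
  have hsplit' : (((Om k M).filter (fun f => Good k M f)).card : ℝ) +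
      (((Om k M).filter (fun f => ¬ Good k M f)).card : ℝ) = (4 * 2 ^ m) ^ y := by
    rw [← hOm]; exact_mod_cast hsplit
  linarith

open Classical in
lemma count_le (m : ℕ) (hk : 5 ≤ k) (hkn : k ≤ n) (hm : 1 ≤ m) :
    ∑ M ∈ powersetCard m (ordi n k), ((Om k M).filter (fun f => Good k M f)).card ≤ a k n := by
  rw [← card_sigma, ← Nat.card_eq_finsetCard]
  unfold a
  have hmem : ∀ z : (powersetCard m (ordi n k)).sigma
      (fun M => (Om k M).filter (fun f => Good k M f)),
      z.1.1 ⊆ ordi n k ∧ z.1.1.Nonempty ∧ z.1.2 ∈ Om k z.1.1 ∧ Good k z.1.1 z.1.2 := by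
    intro z
    have h := z.2
    rw [mem_sigma, mem_powersetCard, mem_filter] at h
    exact ⟨h.1.1, card_pos.1 (by omega), h.2.1, h.2.2⟩
  refine Nat.card_le_card_of_injective
    (fun z => (⟨Relation.ReflTransGen (rel k z.1.1 z.1.2),
      graded_rel hk hkn (hmem z).1 (hmem z).2.1 (hmem z).2.2.1 (hmem z).2.2.2⟩ :
      {r : Fin n → Fin n → Prop // GradedWithLevels k r})) ?_
  intro z z' h
  have h' : Relation.ReflTransGen (rel k z.1.1 z.1.2) = Relation.ReflTransGen (rel k z'.1.1 z'.1.2)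
    := congrArg Subtype.val h
  obtain ⟨h1, h2⟩ := rel_injective hk hkn (hmem z).1 (hmem z').1 (hmem z).2.2.1 (hmem z').2.2.1
    (hmem z).2.2.2 h'
  obtain ⟨⟨M, f⟩, hz⟩ := z
  obtain ⟨⟨M', f'⟩, hz'⟩ := z'
  simp only at h1 h2
  subst h1 h2
  rfl

lemma card_ordi (hk : 5 ≤ k) (hkn : k ≤ n) : (ordi n k).card = n - (k - 3) := by
  have h1 := Finset.card_filter_add_card_filter_not (s := (univ : Finset (Fin n)))
    (fun x => k - 3 ≤ x.val)
  have h2 : (univ.filter (fun x : Fin n => ¬ (k - 3 ≤ x.val))).card = k - 3 := by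
    have : (univ.filter (fun x : Fin n => ¬ (k - 3 ≤ x.val))).card = (range (k - 3)).card := by
      refine card_bij (fun x _ => x.val) ?_ ?_ ?_
      · intro x hx
        rw [mem_filter] at hx
        rw [mem_range]; omega
      · intro x _ y _ h; exact Fin.ext h
      · intro j hj
        rw [mem_range] at hj
        exact ⟨⟨j, by omega⟩, by simp; omega, rfl⟩
    rw [this, card_range]
  rw [h2, card_univ, Fintype.card_fin] at h1
  unfold ordi
  omega

lemma middle_choose (N : ℕ) : 2 ^ N ≤ (N + 1) * N.choose (N / 2) := by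
  rw [← Nat.sum_range_choose]
  calc ∑ m ∈ range (N + 1), N.choose m ≤ ∑ m ∈ range (N + 1), N.choose (N / 2) :=
        sum_le_sum fun m _ => Nat.choose_le_middle m N
    _ = _ := by rw [sum_const, card_range, smul_eq_mul]

lemma eventually_small : ∃ N0 : ℕ, ∀ m y : ℕ, N0 ≤ m → m ≤ y → y ≤ m + 1 →
    (m : ℝ) * (7 / 8) ^ y + y * (1 / 2) ^ m + (3 / 4) ^ y ≤ 1 / 2 := by
  have t1 := tendsto_self_mul_const_pow_of_lt_one (r := (7 / 8 : ℝ)) (by norm_num) (by norm_num)
  have t2 := tendsto_self_mul_const_pow_of_lt_one (r := (1 / 2 : ℝ)) (by norm_num) (by norm_num)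
  have t3 := tendsto_pow_atTop_nhds_zero_of_lt_one (r := (3 / 4 : ℝ)) (by norm_num) (by norm_num)
  have e1 := t1.eventually (gt_mem_nhds (show (0 : ℝ) < 1 / 8 by norm_num))
  have e2 := t2.eventually (gt_mem_nhds (show (0 : ℝ) < 1 / 16 by norm_num))
  have e3 := t3.eventually (gt_mem_nhds (show (0 : ℝ) < 1 / 8 by norm_num))
  obtain ⟨N0, hN0⟩ := Filter.eventually_atTop.1 (e1.and (e2.and e3))
  refine ⟨max N0 1, fun m y hm hmy hym => ?_⟩
  have hm1 : 1 ≤ m := le_trans (le_max_right _ _) hm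
  have hm0 : N0 ≤ m := le_trans (le_max_left _ _) hm
  obtain ⟨a1, -, a3⟩ := hN0 y (hm0.trans hmy)
  obtain ⟨-, b2, -⟩ := hN0 m hm0
  have h1 : (m : ℝ) * (7 / 8) ^ y ≤ y * (7 / 8) ^ y := by
    have : (m : ℝ) ≤ y := by exact_mod_cast hmy
    gcongr
  have h2 : (y : ℝ) * (1 / 2) ^ m ≤ 2 * (m * (1 / 2) ^ m) := by
    have : (y : ℝ) ≤ 2 * m := by exact_mod_cast (show y ≤ 2 * m by omega)
    calc (y : ℝ) * (1 / 2) ^ m ≤ (2 * m) * (1 / 2) ^ m := by gcongr
      _ = _ := by ring
  linarith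

theorem lower_bound (k : ℕ) (hk : 5 ≤ k) : ∃ n0 : ℕ, ∀ n ≥ n0,
    (2 : ℝ) ^ ((n : ℝ) ^ 2 / 4 + (1 - ((k : ℝ) - 5) / 2) * n) ≤ 64 * n * (a k n : ℝ) := by
  classical
  obtain ⟨N0, hN0⟩ := eventually_small
  refine ⟨2 * N0 + 2 * k + 4, fun n hn => ?_⟩
  obtain ⟨N, hN⟩ : ∃ N, N = n - (k - 3) := ⟨_, rfl⟩
  obtain ⟨m, hm⟩ : ∃ m, m = N / 2 := ⟨_, rfl⟩
  obtain ⟨y, hy⟩ : ∃ y, y = N - m := ⟨_, rfl⟩
  have hkn : k ≤ n := by omega
  have h1 := count_le (n := n) (k := k) m hk hkn (by omega)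
  have h2 : ∀ M ∈ powersetCard m (ordi n k), (1 / 2 : ℝ) * (4 * 2 ^ m) ^ y ≤
      (((Om k M).filter (fun f => Good k M f)).card : ℝ) := by
    intro M hM
    rw [mem_powersetCard] at hM
    refine card_good m y hM.2 ?_ (hN0 m y (by omega) (by omega) (by omega))
    rw [card_sdiff_of_subset hM.1, card_ordi hk hkn, hM.2]
    omega
  have h3 : (N.choose m : ℝ) * ((1 / 2 : ℝ) * (4 * 2 ^ m) ^ y) ≤ a k n := by
    calc (N.choose m : ℝ) * ((1 / 2 : ℝ) * (4 * 2 ^ m) ^ y) =
        ∑ M ∈ powersetCard m (ordi n k), (1 / 2 : ℝ) * (4 * 2 ^ m) ^ y := by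
          rw [sum_const, card_powersetCard, card_ordi hk hkn, nsmul_eq_mul, ← hN]
      _ ≤ ∑ M ∈ powersetCard m (ordi n k),
          (((Om k M).filter (fun f => Good k M f)).card : ℝ) := sum_le_sum h2
      _ ≤ a k n := by exact_mod_cast h1
  have h4 : (2 : ℝ) ^ N ≤ (N + 1) * N.choose m := by
    rw [hm]; exact_mod_cast middle_choose N
  have h5 : (4 * 2 ^ m : ℝ) ^ y = 2 ^ ((m + 2) * y) := by
    rw [pow_mul, pow_add]; congr 1; ring
  have h6 : (2 : ℝ) ^ (N + (m + 2) * y) ≤ 2 * (N + 1) * a k n := by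
    calc (2 : ℝ) ^ (N + (m + 2) * y) = 2 ^ N * 2 ^ ((m + 2) * y) := by rw [pow_add]
      _ ≤ ((N + 1) * N.choose m) * 2 ^ ((m + 2) * y) := by gcongr
      _ = 2 * (N + 1) * ((N.choose m : ℝ) * ((1 / 2 : ℝ) * (4 * 2 ^ m) ^ y)) := by
          rw [h5]; ring
      _ ≤ 2 * (N + 1) * a k n := by gcongr
  have hNn : (N : ℝ) + 1 ≤ n := by exact_mod_cast (show N + 1 ≤ n by omega)
  have hNr : (N : ℝ) = n - (k - 3) := by
    rw [hN, Nat.cast_sub (by omega), Nat.cast_sub (by omega)]; norm_num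
  have h7 : (n : ℝ) ^ 2 / 4 + (1 - ((k : ℝ) - 5) / 2) * n ≤ ((N + (m + 2) * y : ℕ) : ℝ) + 4 := by
    have hmy : (m : ℝ) + y = N := by exact_mod_cast (show m + y = N by omega)
    have hc : (y : ℝ) = m ∨ (y : ℝ) = m + 1 := by
      have : y = m ∨ y = m + 1 := by omega
      rcases this with h | h
      · left; exact_mod_cast h
      · right; exact_mod_cast h
    have hn' : (n : ℝ) = m + y + (k - 3) := by rw [hmy, hNr]; ring
    push_cast
    rw [← hmy, hn']
    rcases hc with h | h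
    · rw [h]; nlinarith [sq_nonneg ((k : ℝ) - 7)]
    · rw [h]; nlinarith [sq_nonneg ((k : ℝ) - 7)]
  have ha0 : (0 : ℝ) ≤ a k n := by positivity
  calc (2 : ℝ) ^ ((n : ℝ) ^ 2 / 4 + (1 - ((k : ℝ) - 5) / 2) * n) ≤
      2 ^ (((N + (m + 2) * y : ℕ) : ℝ) + 4) :=
        Real.rpow_le_rpow_of_exponent_le (by norm_num) h7
    _ = 16 * 2 ^ (N + (m + 2) * y) := by
        rw [Real.rpow_add (by norm_num), Real.rpow_natCast]; norm_num; ring
    _ ≤ 16 * (2 * (N + 1) * a k n) := by gcongr
    _ ≤ 16 * (2 * n * a k n) := by gcongr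
    _ ≤ _ := by nlinarith [mul_nonneg (show (0 : ℝ) ≤ n by positivity) ha0]

end count

/-- **Answer to Q2: the asked formula holds.** For each fixed `k ≥ 5`, the number `a k n` of
labelled partial orders on `n` points that are graded with exactly `k` grade levels satisfies
`log₂ a_k(n) = n²/4 + (1 - (k - 5)/2) n + O(log n)`. -/
theorem result (k : ℕ) (hk : 5 ≤ k) : ∃ C : ℝ, ∃ n₀ : ℕ, ∀ n ≥ n₀,
    |Real.logb 2 (a k n) - ((n : ℝ) ^ 2 / 4 + (1 - ((k : ℝ) - 5) / 2) * n)| ≤
      C * Real.log n := by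
  obtain ⟨K, hK, n1, h1⟩ := upper_bound k hk
  obtain ⟨n2, h2⟩ := lower_bound k hk
  have hl2 : 0 < Real.log 2 := Real.log_pos (by norm_num)
  refine ⟨|Real.logb 2 K| / Real.log 2 + 6 / Real.log 2 + (3 * k + 1) / Real.log 2,
    max (max n1 n2) 2, fun n hn => ?_⟩
  have hn1 : n1 ≤ n := le_trans (le_trans (le_max_left _ _) (le_max_left _ _)) hn
  have hn2 : n2 ≤ n := le_trans (le_trans (le_max_right _ _) (le_max_left _ _)) hn
  have hn3 : 2 ≤ n := le_trans (le_max_right _ _) hn
  have hn0 : (0 : ℝ) < n := by exact_mod_cast (show 0 < n by omega)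
  set T : ℝ := (n : ℝ) ^ 2 / 4 + (1 - ((k : ℝ) - 5) / 2) * n with hT
  have u := h1 n hn1
  have l := h2 n hn2
  rw [← hT] at u l
  have hTpos : (0 : ℝ) < 2 ^ T := by positivity
  have ha : (0 : ℝ) < a k n := by
    by_contra hcon
    have : (64 * n * (a k n : ℝ)) ≤ 0 := by
      have h64 : (0 : ℝ) ≤ 64 * n := by positivity
      nlinarith [not_lt.1 hcon]
    linarith
  have hlogn : Real.log 2 ≤ Real.log n :=
    Real.log_le_log (by norm_num) (by exact_mod_cast hn3)
  have hlogT : Real.logb 2 (2 ^ T) = T := by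
    rw [Real.logb_rpow (by norm_num) (by norm_num)]
  have l' : T ≤ 6 + Real.logb 2 n + Real.logb 2 (a k n) := by
    have := Real.logb_le_logb_of_le (b := 2) (by norm_num) hTpos l
    rw [hlogT, Real.logb_mul (by positivity) ha.ne', Real.logb_mul (by norm_num) hn0.ne'] at this
    have h64 : Real.logb 2 64 = 6 := by
      rw [show (64 : ℝ) = 2 ^ (6 : ℝ) by norm_num, Real.logb_rpow (by norm_num) (by norm_num)]
    rw [h64] at this
    exact this
  have u' : Real.logb 2 (a k n) ≤ Real.logb 2 K + 3 * k * Real.logb 2 n + T := by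
    have := Real.logb_le_logb_of_le (b := 2) (by norm_num) ha u
    rw [Real.logb_mul (by positivity) hTpos.ne', hlogT,
      Real.logb_mul hK.ne' (by positivity), Real.logb_pow] at this
    push_cast at this
    exact this
  have hlb : Real.logb 2 n = Real.log n / Real.log 2 := rfl
  have hlb0 : 1 ≤ Real.logb 2 n := by
    rw [hlb, le_div_iff₀ hl2]; linarith
  have hK1 := le_abs_self (Real.logb 2 K)
  have hK0 := abs_nonneg (Real.logb 2 K)
  have hk0 : (0 : ℝ) ≤ k := by positivity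
  have hC : (|Real.logb 2 K| / Real.log 2 + 6 / Real.log 2 + (3 * k + 1) / Real.log 2) *
      Real.log n = |Real.logb 2 K| * Real.logb 2 n + 6 * Real.logb 2 n +
        (3 * k + 1) * Real.logb 2 n := by
    rw [hlb]; field_simp
  rw [hC, abs_le]
  constructor <;> nlinarith [mul_nonneg hK0 (sub_nonneg.2 hlb0), mul_nonneg hk0 (sub_nonneg.2 hlb0)]

end Pool.Agent.Results.MP_ac85ec_co.FiveOrMore
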